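import Pool.Agent.MP_cb3c9c_an.Numeric

set_option autoImplicit false
set_option maxHeartbeats 4000000

open Finset Real

namespace Pool.Agent.MP_cb3c9c_an

theorem choose_refl_sum (p k : ℕ) (hk : k ≤ p) :
    (∑ j ∈ range k, (p.choose j : ℝ)) + (p.choose k : ℝ) + ∑ j ∈ range (p - k), (p.choose j : ℝ)
      = 2 ^ p := by
  have h1 : ∑ j ∈ range (p + 1), (p.choose j : ℝ) = 2 ^ p := by
    have := Nat.sum_range_choose p
    exact_mod_cast this
  have h2 : p + 1 = (k + 1) + (p - k) := by omega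
  rw [h2, Finset.sum_range_add, Finset.sum_range_succ] at h1
  have h3 : ∑ x ∈ range (p - k), (p.choose (k + 1 + x) : ℝ)
      = ∑ j ∈ range (p - k), (p.choose j : ℝ) := by
    rw [← Finset.sum_range_reflect (fun j => (p.choose j : ℝ)) (p - k)]
    apply Finset.sum_congr rfl
    intro x hx
    rw [Finset.mem_range] at hx
    rw [← Nat.choose_symm_of_eq_add (by omega : p = (k + 1 + x) + (p - k - 1 - x))]
  rw [h3] at h1
  exact h1

theorem Zsum (p k : ℕ) :
    ∑ j ∈ range k, (p.choose j : ℝ) * ((p : ℝ) - 2 * j) = k * (p.choose k : ℝ) := by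
  induction k with
  | zero => simp
  | succ k ih =>
    rw [Finset.sum_range_succ, ih]
    rcases le_or_gt k p with h | h
    · have h1 := Nat.choose_succ_right_eq p k
      have h2 : ((p.choose (k + 1) : ℕ) : ℝ) * (k + 1) = (p.choose k : ℝ) * (p - k) := by
        have : ((p - k : ℕ) : ℝ) = (p : ℝ) - k := by rw [Nat.cast_sub h]
        rw [← this]; exact_mod_cast h1
      push_cast
      linarith
    · rw [Nat.choose_eq_zero_of_lt h, Nat.choose_eq_zero_of_lt (by omega)]
      simp

/-- Full numeric inequality. -/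
theorem num (p k : ℕ) (hp : 1 ≤ p) (hk : k ≤ p) (m : ℝ) (hm1 : -1 ≤ m) (hm2 : m ≤ 1) :
    2 / π * (2 ^ p) ^ 2 ≤
      (2 * (∑ j ∈ range k, (p.choose j : ℝ)) + (p.choose k : ℝ) - 2 ^ p + (p.choose k : ℝ) * m) ^ 2
      + (1 / p) * ((p.choose k : ℝ) * (p + ((p : ℝ) - 2 * k) * m)) ^ 2
      + (p.choose k : ℝ) ^ 2 * (2 / π - m ^ 2) := by
  have hp0 : (p : ℝ) ≠ 0 := by positivity
  have e4 : ((2 : ℝ) ^ p) ^ 2 = 4 ^ p := by
    rw [← pow_mul, mul_comm, pow_mul]; norm_num
  rw [e4]
  rcases le_or_gt (2 * k) p with h | h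
  · have hE := (main_ind p hp (p - 2 * k) k (by omega)).2 m hm1 hm2
    refine hE.trans (le_of_eq ?_)
    unfold EE AA
    have ht : (((p - 2 * k : ℕ)) : ℝ) = (p : ℝ) - 2 * k := by
      rw [Nat.cast_sub h]; push_cast; ring
    rw [ht]
    field_simp
    ring
  · have hE := (main_ind p hp (p - 2 * (p - k)) (p - k) (by omega)).2 (-m) (by linarith) (by linarith)
    refine hE.trans (le_of_eq ?_)
    have hS := choose_refl_sum p k hk
    have hsymm : p.choose (p - k) = p.choose k := Nat.choose_symm hk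
    unfold EE AA
    have ht : (((p - 2 * (p - k) : ℕ)) : ℝ) = 2 * k - (p : ℝ) := by
      rw [Nat.cast_sub (by omega)]; push_cast; rw [Nat.cast_sub hk]; ring
    rw [ht, hsymm, ← hS]
    field_simp
    ring

theorem sum_cnt {A : Type*} [Fintype A] [DecidableEq A] (c : A → Bool) (φ : ℕ → ℝ) :
    ∑ u : A → Bool, φ (univ.filter (fun i => u i ≠ c i)).card
      = ∑ j ∈ range (Fintype.card A + 1), ((Fintype.card A).choose j : ℝ) * φ j := by
  have h1 : ∑ u : A → Bool, φ (univ.filter (fun i => u i ≠ c i)).card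
      = ∑ s : Finset A, φ s.card := by
    refine Finset.sum_bij' (fun u _ => univ.filter (fun i => u i ≠ c i))
      (fun s _ => fun i => if i ∈ s then !(c i) else c i) ?_ ?_ ?_ ?_ ?_
    · intro u _; exact mem_univ _
    · intro s _; exact mem_univ _
    · intro u _
      funext i
      by_cases h : u i = c i
      · simp [h]
      · simp only [mem_filter, mem_univ, true_and, ne_eq, h, not_false_eq_true, if_true]
        cases hu : u i <;> cases hc : c i <;> simp_all
    · intro s _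
      ext i
      simp only [mem_filter, mem_univ, true_and, ne_eq]
      by_cases h : i ∈ s <;> simp [h]
    · intro u _; rfl
  rw [h1]
  have h2 : ∑ s ∈ (univ : Finset A).powerset, φ s.card
      = ∑ m ∈ range ((univ : Finset A).card + 1), ((univ : Finset A).card).choose m • φ m :=
    Finset.sum_powerset_apply_card (f := φ) (x := (univ : Finset A))
  rw [Finset.powerset_univ, Finset.card_univ] at h2
  rw [h2]
  apply Finset.sum_congr rfl
  intro j _
  rw [nsmul_eq_mul]

/-- Fourier weight at degree at most one. -/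
noncomputable def Wt {ι : Type} [Fintype ι] [DecidableEq ι] (f : (ι → Bool) → ℝ) : ℝ :=
  ((∑ x, f x) / 2 ^ Fintype.card ι) ^ 2 +
    ∑ i, ((∑ x, f x * (if x i then (-1 : ℝ) else 1)) / 2 ^ Fintype.card ι) ^ 2

theorem sum_sg {B : Type*} [Fintype B] [DecidableEq B] (i : B) :
    ∑ y : B → Bool, (if y i then (-1 : ℝ) else 1) = 0 := by
  have h : ∑ y : B → Bool, (if y i then (-1 : ℝ) else 1)
      = ∑ y : B → Bool, -(if y i then (-1 : ℝ) else 1) := by
    refine Finset.sum_bij' (fun y _ => Function.update y i (!(y i)))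
      (fun y _ => Function.update y i (!(y i))) ?_ ?_ ?_ ?_ ?_
    · intro y _; exact mem_univ _
    · intro y _; exact mem_univ _
    · intro y _; simp
    · intro y _; simp
    · intro y _
      cases y i <;> simp
  rw [Finset.sum_neg_distrib] at h
  linarith

/-- The key block lemma. -/
theorem block {ι : Type} [Fintype ι] [DecidableEq ι] (P : ι → Prop) [DecidablePred P]
    (f : (ι → Bool) → ℝ) (c : {i // P i} → Bool) (κ : ℕ)
    (hp : 1 ≤ Fintype.card {i // P i}) (hκ : κ ≤ Fintype.card {i // P i})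
    (g : ({i // ¬ P i} → Bool) → ℝ) (hg : ∀ y, g y = 1 ∨ g y = -1)
    (hW : 2 / π ≤ Wt g)
    (h1 : ∀ u y, (univ.filter (fun i => u i ≠ c i)).card < κ →
      f ((Equiv.piEquivPiSubtypeProd P (fun _ => Bool)).symm (u, y)) = 1)
    (h2 : ∀ u y, κ < (univ.filter (fun i => u i ≠ c i)).card →
      f ((Equiv.piEquivPiSubtypeProd P (fun _ => Bool)).symm (u, y)) = -1)
    (h3 : ∀ u y, (univ.filter (fun i => u i ≠ c i)).card = κ →
      f ((Equiv.piEquivPiSubtypeProd P (fun _ => Bool)).symm (u, y)) = g y) :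
    2 / π ≤ Wt f := by
  classical
  set e := Equiv.piEquivPiSubtypeProd P (fun _ : ι => Bool) with he
  set p := Fintype.card {i // P i} with hpdef
  set q := Fintype.card {i // ¬ P i} with hqdef
  have hcard : Fintype.card ι = p + q := by
    rw [hpdef, hqdef, Fintype.card_subtype_compl]
    have := Fintype.card_subtype_le P
    omega
  set G : ℝ := ∑ y, g y with hG
  set cnt : ({i // P i} → Bool) → ℕ := fun u => (univ.filter (fun i => u i ≠ c i)).card with hcnt
  have hsplit : ∀ h : (ι → Bool) → ℝ, ∑ x, h x = ∑ u, ∑ y, h (e.symm (u, y)) := by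
    intro h
    rw [← Equiv.sum_comp e.symm h, Fintype.sum_prod_type]
  have hcardB : (Fintype.card ({i // ¬ P i} → Bool) : ℝ) = 2 ^ q := by
    rw [Fintype.card_fun, Fintype.card_bool]; push_cast; rfl
  -- value of inner sums
  have hinner : ∀ u, ∑ y, f (e.symm (u, y))
      = if cnt u < κ then (2 : ℝ) ^ q else if cnt u = κ then G else -(2 : ℝ) ^ q := by
    intro u
    rcases lt_trichotomy (cnt u) κ with h | h | h
    · rw [if_pos h, Finset.sum_congr rfl (fun y _ => h1 u y h)]
      rw [Finset.sum_const, Finset.card_univ, nsmul_eq_mul, hcardB, mul_one]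
    · rw [if_neg (by omega), if_pos h, Finset.sum_congr rfl (fun y _ => h3 u y h)]
    · rw [if_neg (by omega), if_neg (by omega), Finset.sum_congr rfl (fun y _ => h2 u y h)]
      rw [Finset.sum_const, Finset.card_univ, nsmul_eq_mul, hcardB]; ring
  -- splitting sums over range (p+1)
  have hrange : ∀ ψ : ℕ → ℝ, ∀ a b' d : ℝ,
      ∑ j ∈ range (p + 1), ψ j * (if j < κ then a else if j = κ then b' else d)
        = a * (∑ j ∈ range κ, ψ j) + b' * ψ κ
          + d * ((∑ j ∈ range (p + 1), ψ j) - (∑ j ∈ range κ, ψ j) - ψ κ) := by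
    intro ψ a b' d
    have hp1 : p + 1 = (κ + 1) + (p - κ) := by omega
    rw [hp1, Finset.sum_range_add, Finset.sum_range_add ψ (κ + 1), Finset.sum_range_succ,
      Finset.sum_range_succ ψ κ]
    have ha : ∑ j ∈ range κ, ψ j * (if j < κ then a else if j = κ then b' else d)
        = a * ∑ j ∈ range κ, ψ j := by
      rw [Finset.mul_sum]
      apply Finset.sum_congr rfl
      intro j hj
      rw [if_pos (Finset.mem_range.mp hj)]; ring
    have hd : ∑ j ∈ range (p - κ), ψ (κ + 1 + j) *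
          (if κ + 1 + j < κ then a else if κ + 1 + j = κ then b' else d)
        = d * ∑ j ∈ range (p - κ), ψ (κ + 1 + j) := by
      rw [Finset.mul_sum]
      apply Finset.sum_congr rfl
      intro j _
      rw [if_neg (by omega), if_neg (by omega)]; ring
    rw [ha, hd]
    simp only [lt_irrefl, if_false, if_true]
    ring
  set S : ℝ := ∑ j ∈ range κ, (p.choose j : ℝ) with hS
  set b : ℝ := (p.choose κ : ℝ) with hb
  have htot : ∑ j ∈ range (p + 1), (p.choose j : ℝ) = 2 ^ p := by
    have := Nat.sum_range_choose p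
    exact_mod_cast this
  have hsum0 : ∑ x, f x = 2 ^ q * (2 * S + b - 2 ^ p) + b * G := by
    rw [hsplit]
    rw [Finset.sum_congr rfl (fun u _ => hinner u)]
    rw [sum_cnt c (fun j => if j < κ then (2 : ℝ) ^ q else if j = κ then G else -(2 : ℝ) ^ q)]
    rw [hrange (fun j => (p.choose j : ℝ)), htot]
    ring
  -- the block sum
  set T : ({i // P i} → Bool) → ℝ := fun u => ∑ i, (if c i then (-1 : ℝ) else 1) *
    (if u i then (-1 : ℝ) else 1) with hT
  have hTval : ∀ u, T u = (p : ℝ) - 2 * (cnt u : ℝ) := by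
    intro u
    have h : T u = ∑ i : {i // P i}, ((1 : ℝ) - 2 * (if u i ≠ c i then 1 else 0)) := by
      rw [hT]
      apply Finset.sum_congr rfl
      intro i _
      cases hu : u i <;> cases hc : c i <;> norm_num
    rw [h, Finset.sum_sub_distrib, ← Finset.mul_sum, Finset.sum_boole]
    simp [hcnt, hpdef]
  have hsumT : ∑ u, T u * (∑ y, f (e.symm (u, y)))
      = 2 ^ q * (p * b) + b * ((p : ℝ) - 2 * κ) * G := by
    have hstep : ∀ u, T u * (∑ y, f (e.symm (u, y))) = (fun j : ℕ => ((p : ℝ) - 2 * (j : ℝ)) *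
        (if j < κ then (2 : ℝ) ^ q else if j = κ then G else -(2 : ℝ) ^ q)) (cnt u) := by
      intro u
      rw [hTval, hinner]
    rw [Finset.sum_congr rfl (fun u _ => hstep u)]
    rw [sum_cnt c (fun j : ℕ => ((p : ℝ) - 2 * (j : ℝ)) *
        (if j < κ then (2 : ℝ) ^ q else if j = κ then G else -(2 : ℝ) ^ q))]
    have hstep2 : ∑ j ∈ range (p + 1), (p.choose j : ℝ) * (((p : ℝ) - 2 * (j : ℝ)) *
        (if j < κ then (2 : ℝ) ^ q else if j = κ then G else -(2 : ℝ) ^ q))
        = ∑ j ∈ range (p + 1), ((p.choose j : ℝ) * ((p : ℝ) - 2 * (j : ℝ))) *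
        (if j < κ then (2 : ℝ) ^ q else if j = κ then G else -(2 : ℝ) ^ q) := by
      apply Finset.sum_congr rfl; intro j _; ring
    rw [hstep2, hrange, Zsum, Zsum, Nat.choose_succ_self]
    push_cast
    ring
  have hA : ∑ i : {i // P i}, (if c i then (-1 : ℝ) else 1) *
      (∑ x, f x * (if x i.1 then (-1 : ℝ) else 1))
        = 2 ^ q * (p * b) + b * ((p : ℝ) - 2 * κ) * G := by
    rw [← hsumT]
    have hx : ∀ i : {i // P i}, ∑ x, f x * (if x i.1 then (-1 : ℝ) else 1)
        = ∑ u : {i // P i} → Bool, (if u i then (-1 : ℝ) else 1) * ∑ y, f (e.symm (u, y)) := by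
      intro i
      rw [hsplit]
      apply Finset.sum_congr rfl
      intro u _
      rw [Finset.mul_sum]
      apply Finset.sum_congr rfl
      intro y _
      have : (e.symm (u, y)) i.1 = u i := by
        rw [he]
        simp [Equiv.piEquivPiSubtypeProd, i.2]
      rw [this]; ring
    simp_rw [hx, hT, Finset.sum_mul, Finset.mul_sum]
    rw [Finset.sum_comm]
    apply Finset.sum_congr rfl
    intro u _
    apply Finset.sum_congr rfl
    intro i _
    apply Finset.sum_congr rfl
    intro y _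
    ring
  have hB : ∀ i : {i // ¬ P i}, ∑ x, f x * (if x i.1 then (-1 : ℝ) else 1)
      = b * ∑ y, g y * (if y i then (-1 : ℝ) else 1) := by
    intro i
    rw [hsplit]
    have hev : ∀ u y, (e.symm (u, y)) i.1 = y i := by
      intro u y
      rw [he]
      simp [Equiv.piEquivPiSubtypeProd, i.2]
    have hin : ∀ u, ∑ y, f (e.symm (u, y)) * (if (e.symm (u, y)) i.1 then (-1 : ℝ) else 1)
        = (fun j : ℕ => if j < κ then (0 : ℝ) else if j = κ then
            (∑ y, g y * (if y i then (-1 : ℝ) else 1)) else 0) (cnt u) := by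
      intro u
      simp only [hev]
      rcases lt_trichotomy (cnt u) κ with h | h | h
      · rw [if_pos h, Finset.sum_congr rfl (fun y _ => by rw [h1 u y h, one_mul])]
        exact sum_sg i
      · rw [if_neg (by omega), if_pos h, Finset.sum_congr rfl (fun y _ => by rw [h3 u y h])]
      · rw [if_neg (by omega), if_neg (by omega),
          Finset.sum_congr rfl (fun y _ => by rw [h2 u y h, neg_one_mul])]
        rw [Finset.sum_neg_distrib, sum_sg i, neg_zero]
    rw [Finset.sum_congr rfl (fun u _ => hin u)]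
    rw [sum_cnt c (fun j : ℕ => if j < κ then (0 : ℝ) else if j = κ then
            (∑ y, g y * (if y i then (-1 : ℝ) else 1)) else 0)]
    rw [hrange (fun j => (p.choose j : ℝ))]
    rw [← hb]; ring
  -- assemble
  have hN : (0 : ℝ) < 2 ^ p := by positivity
  have hQ : (0 : ℝ) < 2 ^ q := by positivity
  have hp0 : (0 : ℝ) < p := by exact_mod_cast hp
  set m : ℝ := G / 2 ^ q with hm
  have hGm : G = m * 2 ^ q := by rw [hm]; field_simp
  have hGabs : |G| ≤ 2 ^ q := by
    rw [hG]
    calc |∑ y, g y| ≤ ∑ y, |g y| := Finset.abs_sum_le_sum_abs _ _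
      _ = ∑ y : {i // ¬ P i} → Bool, (1 : ℝ) := by
          apply Finset.sum_congr rfl; intro y _
          rcases hg y with h | h <;> rw [h] <;> norm_num
      _ = 2 ^ q := by rw [Finset.sum_const, Finset.card_univ, nsmul_eq_mul, hcardB, mul_one]
  have hm1 : -1 ≤ m := by
    rw [hm, le_div_iff₀ hQ]; linarith [neg_abs_le G]
  have hm2 : m ≤ 1 := by
    rw [hm, div_le_iff₀ hQ]; linarith [le_abs_self G]
  have hnum := num p κ hp hκ m hm1 hm2
  rw [← hS, ← hb] at hnum
  -- split the weight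
  have hsplitW : ∑ i, ((∑ x, f x * (if x i then (-1 : ℝ) else 1)) / 2 ^ Fintype.card ι) ^ 2
      = ∑ i : {i // P i}, ((∑ x, f x * (if x i.1 then (-1 : ℝ) else 1)) / 2 ^ Fintype.card ι) ^ 2
      + ∑ i : {i // ¬ P i},
        ((∑ x, f x * (if x i.1 then (-1 : ℝ) else 1)) / 2 ^ Fintype.card ι) ^ 2 := by
    rw [← Fintype.sum_subtype_add_sum_subtype P
      (fun i => ((∑ x, f x * (if x i then (-1 : ℝ) else 1)) / 2 ^ Fintype.card ι) ^ 2)]
  have hCS : (1 / p) * ((2 ^ q * (p * b) + b * ((p : ℝ) - 2 * κ) * G) / 2 ^ Fintype.card ι) ^ 2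
      ≤ ∑ i : {i // P i},
        ((∑ x, f x * (if x i.1 then (-1 : ℝ) else 1)) / 2 ^ Fintype.card ι) ^ 2 := by
    have h := Finset.sum_mul_sq_le_sq_mul_sq (univ : Finset {i // P i})
      (fun i => (if c i then (-1 : ℝ) else 1))
      (fun i => (∑ x, f x * (if x i.1 then (-1 : ℝ) else 1)) / 2 ^ Fintype.card ι)
    have h4 : ∑ i : {i // P i}, (if c i then (-1 : ℝ) else 1) ^ 2 = p := by
      have : ∀ i : {i // P i}, (if c i then (-1 : ℝ) else 1) ^ 2 = 1 := by
        intro i; split_ifs <;> norm_num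
      simp only [this]; simp [hpdef]
    have h5 : ∑ i : {i // P i}, (if c i then (-1 : ℝ) else 1) *
        ((∑ x, f x * (if x i.1 then (-1 : ℝ) else 1)) / 2 ^ Fintype.card ι)
        = (2 ^ q * (p * b) + b * ((p : ℝ) - 2 * κ) * G) / 2 ^ Fintype.card ι := by
      rw [← hA, Finset.sum_div]
      apply Finset.sum_congr rfl; intro i _; ring
    rw [h4, h5] at h
    rw [one_div, inv_mul_le_iff₀ hp0]
    exact h
  have hBW : ∑ i : {i // ¬ P i},
        ((∑ x, f x * (if x i.1 then (-1 : ℝ) else 1)) / 2 ^ Fintype.card ι) ^ 2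
      = (b / 2 ^ p) ^ 2 * ∑ i : {i // ¬ P i},
        ((∑ y, g y * (if y i then (-1 : ℝ) else 1)) / 2 ^ q) ^ 2 := by
    rw [Finset.mul_sum]
    apply Finset.sum_congr rfl
    intro i _
    rw [hB i, hcard, pow_add]
    field_simp
  have hgW : 2 / π - m ^ 2 ≤ ∑ i : {i // ¬ P i},
        ((∑ y, g y * (if y i then (-1 : ℝ) else 1)) / 2 ^ q) ^ 2 := by
    unfold Wt at hW
    rw [← hG, ← hqdef, ← hm] at hW
    linarith
  unfold Wt
  rw [hsplitW, hBW, hsum0]
  have hfin : 2 / π ≤ ((2 ^ q * (2 * S + b - 2 ^ p) + b * G) / 2 ^ Fintype.card ι) ^ 2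
      + ((1 / p) * ((2 ^ q * (p * b) + b * ((p : ℝ) - 2 * κ) * G) / 2 ^ Fintype.card ι) ^ 2
        + (b / 2 ^ p) ^ 2 * (2 / π - m ^ 2)) := by
    have e1 : (2 ^ q * (2 * S + b - 2 ^ p) + b * G) / 2 ^ Fintype.card ι
        = (2 * S + b - 2 ^ p + b * m) / 2 ^ p := by
      rw [hcard, pow_add, hGm]; field_simp
    have e2 : (2 ^ q * (p * b) + b * ((p : ℝ) - 2 * κ) * G) / 2 ^ Fintype.card ι
        = (b * (p + ((p : ℝ) - 2 * κ) * m)) / 2 ^ p := by
      rw [hcard, pow_add, hGm]; field_simp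
    rw [e1, e2]
    have e3 : ((2 * S + b - 2 ^ p + b * m) / 2 ^ p) ^ 2
      + ((1 / p) * ((b * (p + ((p : ℝ) - 2 * κ) * m)) / 2 ^ p) ^ 2
        + (b / 2 ^ p) ^ 2 * (2 / π - m ^ 2))
        = ((2 * S + b - 2 ^ p + b * m) ^ 2 + (1 / p) * (b * (p + ((p : ℝ) - 2 * κ) * m)) ^ 2
          + b ^ 2 * (2 / π - m ^ 2)) / (2 ^ p) ^ 2 := by
      generalize 2 / π = w
      field_simp
      ring
    rw [e3, le_div_iff₀ (by positivity)]
    exact hnum
  have h9 : (b / 2 ^ p) ^ 2 * (2 / π - m ^ 2) ≤ (b / 2 ^ p) ^ 2 * ∑ i : {i // ¬ P i},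
        ((∑ y, g y * (if y i then (-1 : ℝ) else 1)) / 2 ^ q) ^ 2 :=
    mul_le_mul_of_nonneg_left hgW (by positivity)
  linarith

end Pool.Agent.MP_cb3c9c_an
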