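import Pool.Agent.MP_cb3c9c_an.Wallis

set_option autoImplicit false
set_option maxHeartbeats 4000000

open Finset Real

namespace Pool.Agent.MP_cb3c9c_an

/-- `2^p - 2 Σ_{j<k} C(p,j) - C(p,k)`. -/
noncomputable def AA (p k : ℕ) : ℝ :=
  2 ^ p - 2 * ∑ j ∈ range k, (p.choose j : ℝ) - (p.choose k : ℝ)

/-- The quadratic in the mean `m` of the residual function. -/
noncomputable def EE (p k t : ℕ) (m : ℝ) : ℝ :=
  AA p k ^ 2 - 2 * (p.choose k : ℝ) * m * (AA p k - (p.choose k : ℝ) * t)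
    + (p.choose k : ℝ) ^ 2 * (p + 2 / π) + (p.choose k : ℝ) ^ 2 * (t : ℝ) ^ 2 * m ^ 2 / p

theorem AA_zero (k : ℕ) : AA (2 * k) k = 0 := by
  have h := Nat.sum_range_choose_halfway k
  have h2 : (∑ i ∈ range (k + 1), (2 * k + 1).choose i)
      = 2 * (∑ i ∈ range k, (2 * k).choose i) + (2 * k).choose k := by
    rw [Finset.sum_range_succ']
    simp only [Nat.choose_succ_succ', Nat.choose_zero_right]
    rw [Finset.sum_add_distrib]
    have h3 : ∑ i ∈ range k, (2 * k).choose (i + 1) + 1 = ∑ i ∈ range (k + 1), (2 * k).choose i := by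
      rw [Finset.sum_range_succ' (fun i => (2 * k).choose i)]; simp
    have h4 := Finset.sum_range_succ (fun i => (2 * k).choose i) k
    omega
  unfold AA
  have h5 : ((∑ i ∈ range (k + 1), (2 * k + 1).choose i : ℕ) : ℝ) = (4 : ℝ) ^ k := by
    rw [h]; push_cast; rfl
  rw [h2] at h5
  push_cast at h5
  rw [pow_mul]
  norm_num
  linarith

theorem AA_one (k : ℕ) : AA (2 * k + 1) k = ((2 * k + 1).choose k : ℝ) := by
  have h := Nat.sum_range_choose_halfway k
  have h5 : ((∑ i ∈ range (k + 1), (2 * k + 1).choose i : ℕ) : ℝ) = (4 : ℝ) ^ k := by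
    rw [h]; push_cast; rfl
  rw [Finset.sum_range_succ] at h5
  push_cast at h5
  unfold AA
  rw [pow_succ, pow_mul]
  norm_num
  linarith

theorem AA_succ (p k : ℕ) :
    AA p k = AA p (k + 1) + (p.choose k : ℝ) + (p.choose (k + 1) : ℝ) := by
  unfold AA
  rw [Finset.sum_range_succ]
  ring

theorem center_even (k : ℕ) :
    2 / π * 4 ^ (2 * k) ≤ ((2 * k).choose k : ℝ) ^ 2 * (((2 * k : ℕ) : ℝ) + 2 / π) := by
  have h := wallis_bound k
  rw [Nat.centralBinom_eq_two_mul_choose] at h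
  have hpi := Real.pi_pos
  have e1 : (4 : ℝ) ^ (2 * k) = 16 ^ k := by rw [pow_mul]; norm_num
  have e2 : ((2 * k).choose k : ℝ) ^ 2 * (((2 * k : ℕ) : ℝ) + 2 / π)
      = 2 / π * (((2 * k).choose k : ℝ) ^ 2 * (π * k + 1)) := by
    push_cast
    field_simp
  rw [e1, e2]
  exact mul_le_mul_of_nonneg_left h (by positivity)

theorem center_odd (k : ℕ) :
    2 / π * 4 ^ (2 * k + 1) ≤
      ((2 * k + 1).choose k : ℝ) ^ 2 * (((2 * k + 1 : ℕ) : ℝ) + 1 + 2 / π) := by
  have h := center_even (k + 1)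
  have e1 : ((2 * (k + 1)).choose (k + 1) : ℝ) = 2 * ((2 * k + 1).choose k : ℝ) := by
    have h1 : (2 * (k + 1)).choose (k + 1) = (2 * k + 1).choose k + (2 * k + 1).choose (k + 1) := by
      rw [show 2 * (k + 1) = (2 * k + 1) + 1 by ring, Nat.choose_succ_succ']
    have h2 : (2 * k + 1).choose (k + 1) = (2 * k + 1).choose k := by
      rw [← Nat.choose_symm_of_eq_add (by omega : 2 * k + 1 = (k + 1) + k)]
    rw [h1, h2]; push_cast; ring
  rw [e1] at h
  push_cast at h ⊢
  have e2 : (4 : ℝ) ^ (2 * (k + 1)) = 4 * 4 ^ (2 * k + 1) := by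
    rw [show 2 * (k + 1) = (2 * k + 1) + 1 by ring, pow_succ]; ring
  rw [e2] at h
  have e3 : (2 * (k : ℝ) + 1 + 1 + 2 / π) = (2 * ((k : ℝ) + 1) + 2 / π) := by ring
  rw [e3]
  linarith

theorem aux_m (t m : ℝ) (ht : 2 ≤ t) (hm2 : m ≤ 1) :
    -1 ≤ (1 - m) * (4 * (t - 1) ^ 2 - t ^ 2 * (1 + m)) := by
  have h1 : 4 * (t - 1) ^ 2 - t ^ 2 * (1 + m) = -4 * m + (t - 2) * (4 * t - (t + 2) * (1 + m)) := by
    ring
  have h2 : 0 ≤ 4 * t - (t + 2) * (1 + m) := by nlinarith
  have h3 : 0 ≤ (t - 2) * (4 * t - (t + 2) * (1 + m)) := mul_nonneg (by linarith) h2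
  rw [h1]
  nlinarith [sq_nonneg (2 * m - 1), mul_nonneg (by linarith : (0:ℝ) ≤ 1 - m) h3]

/-- Main numeric inequality (induction away from the centre). -/
theorem main_ind (p : ℕ) (hp : 1 ≤ p) (t : ℕ) :
    ∀ k, 2 * k + t = p → 0 ≤ AA p k - (p.choose k : ℝ) * t ∧
      ∀ m : ℝ, -1 ≤ m → m ≤ 1 → 2 / π * 4 ^ p ≤ EE p k t m := by
  have hpi := Real.pi_pos
  have hpi3 := Real.pi_gt_three
  have hw : 2 / π ≤ 3 / 4 := by
    rw [div_le_div_iff₀ hpi (by norm_num)]; linarith
  have hw0 : 0 < 2 / π := by positivity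
  induction t using Nat.twoStepInduction with
  | zero =>
    intro k hk
    obtain rfl : p = 2 * k := by omega
    have hA := AA_zero k
    refine ⟨by simp [hA], ?_⟩
    intro m h1 h2
    have h := center_even k
    unfold EE
    rw [hA]
    simp only [Nat.cast_zero]
    calc 2 / π * 4 ^ (2 * k) ≤ _ := h
      _ = _ := by ring
  | one =>
    intro k hk
    obtain rfl : p = 2 * k + 1 := by omega
    have hA := AA_one k
    refine ⟨by simp [hA], ?_⟩
    intro m h1 h2
    have h := center_odd k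
    unfold EE
    rw [hA]
    have h3 : 0 ≤ ((2 * k + 1).choose k : ℝ) ^ 2 * ((1 : ℕ) : ℝ) ^ 2 * m ^ 2 / ((2 * k + 1 : ℕ) : ℝ) := by
      positivity
    have h4 : ((2 * k + 1).choose k : ℝ) - ((2 * k + 1).choose k : ℝ) * ((1 : ℕ) : ℝ) = 0 := by
      push_cast; ring
    rw [h4]
    nlinarith
  | more t ih1 ih2 =>
    intro k hk
    obtain ⟨hu, hE⟩ := ih1 (k + 1) (by omega)
    have hG := hE 1 (by norm_num) le_rfl
    have hsucc := AA_succ p k
    -- relation between consecutive binomials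
    have hrel : ((p.choose k : ℕ) : ℝ) * (k + t + 2) = (p.choose (k + 1) : ℝ) * (k + 1) := by
      have h := Nat.choose_succ_right_eq p k
      have h' : p - k = k + t + 2 := by omega
      rw [h'] at h
      exact_mod_cast h.symm
    have hp' : (p : ℝ) = 2 * k + t + 2 := by rw [← hk]; push_cast; ring
    set b : ℝ := (p.choose k : ℝ) with hb
    set b1 : ℝ := (p.choose (k + 1) : ℝ) with hb1
    have hb1pos : 0 < b1 := by
      rw [hb1]; exact_mod_cast Nat.choose_pos (by omega)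
    have hbpos : 0 < b := by
      rw [hb]; exact_mod_cast Nat.choose_pos (by omega)
    have hk0 : (0 : ℝ) ≤ k := Nat.cast_nonneg k
    have ht0 : (0 : ℝ) ≤ t := Nat.cast_nonneg t
    have hbb : b = b1 * (k + 1) / (k + t + 2) := by
      rw [eq_div_iff (by positivity)]; exact hrel
    have hle : b ≤ b1 := by
      have : b * (k + t + 2) ≤ b1 * (k + t + 2) := by
        rw [hrel]; nlinarith
      exact le_of_mul_le_mul_right this (by positivity)
    set u : ℝ := AA p (k + 1) - b1 * t with hu_def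
    have hA1 : AA p (k + 1) = b1 * t + u := by rw [hu_def]; ring
    have hA : AA p k = b1 * t + u + b + b1 := by rw [hsucc, hA1]
    have hu' : AA p k - b * ((t + 2 : ℕ) : ℝ) = u + (t + 1) * (b1 - b) := by
      rw [hA]; push_cast; ring
    have hu'0 : 0 ≤ AA p k - b * ((t + 2 : ℕ) : ℝ) := by
      rw [hu']
      have : 0 ≤ b1 - b := by linarith
      positivity
    refine ⟨hu'0, ?_⟩
    intro m hm1 hm2
    set u' : ℝ := AA p k - b * ((t + 2 : ℕ) : ℝ) with hu'_def
    have hA' : AA p k = b * (t + 2) + u' := by rw [hu'_def]; push_cast; ring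
    -- lower bound on u'
    have hlow : 2 * ((t : ℝ) + 1) ^ 2 * b ≤ u' * p := by
      have h1 : (b1 - b) * (k + 1) = b * (t + 1) := by
        have := hrel; linarith
      have h2 : ((t : ℝ) + 1) * (b1 - b) ≤ u' := by rw [hu']; linarith
      have h3 : ((t : ℝ) + 1) * (b1 - b) * p ≤ u' * p := by
        apply mul_le_mul_of_nonneg_right h2 (Nat.cast_nonneg p)
      have h4 : 2 * ((t : ℝ) + 1) ^ 2 * b ≤ ((t : ℝ) + 1) * (b1 - b) * p := by
        have h5 : ((t : ℝ) + 1) * (b1 - b) * (2 * (k + 1)) = 2 * ((t : ℝ) + 1) ^ 2 * b := by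
          linear_combination 2 * ((t : ℝ) + 1) * h1
        rw [← h5]
        apply mul_le_mul_of_nonneg_left
        · rw [hp']; linarith
        · have : 0 ≤ b1 - b := by linarith
          positivity
      linarith
    -- step for G
    have hGstep : EE p (k + 1) t 1 + b ^ 2 / p ≤ EE p k (t + 2) 1 := by
      have hident : EE p k (t + 2) 1 - EE p (k + 1) t 1
          = 4 * u * b1 + b1 ^ 2 * (t + 1) * (2 * k + t + 3) * (1 - 2 / π) / (k + t + 2) ^ 2 := by
        unfold EE
        rw [← hb, ← hb1, hA, hA1]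
        push_cast
        rw [hp', hbb]
        have e1 : ((k : ℝ) + t + 2) ≠ 0 := by positivity
        have e2 : (2 * (k : ℝ) + t + 2) ≠ 0 := by positivity
        have e3 : π ≠ 0 := hpi.ne'
        generalize 2 / π = w
        field_simp
        ring
      have hb2 : b ^ 2 / p ≤ b1 ^ 2 * (t + 1) * (2 * k + t + 3) * (1 - 2 / π) / (k + t + 2) ^ 2 := by
        rw [hbb, hp']
        rw [div_pow, div_div, div_le_div_iff₀ (by positivity) (by positivity)]
        have h1 : ((k : ℝ) + 1) ^ 2 ≤ (t + 1) * (2 * k + t + 3) * (1 - 2 / π) * (2 * k + t + 2) := by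
          have h2 : (1 : ℝ) / 4 ≤ 1 - 2 / π := by linarith
          have h3 : ((k : ℝ) + 1) ^ 2 ≤ (t + 1) * (2 * k + t + 3) * (1 / 4) * (2 * k + t + 2) := by
            nlinarith [mul_nonneg hk0 ht0, mul_nonneg (mul_nonneg hk0 ht0) ht0,
              mul_nonneg (mul_nonneg hk0 hk0) ht0, mul_nonneg ht0 ht0,
              mul_nonneg (mul_nonneg ht0 ht0) ht0]
          have h4 : (t + 1) * (2 * (k : ℝ) + t + 3) * (1 / 4) * (2 * k + t + 2)
              ≤ (t + 1) * (2 * k + t + 3) * (1 - 2 / π) * (2 * k + t + 2) := by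
            apply mul_le_mul_of_nonneg_right _ (by positivity)
            apply mul_le_mul_of_nonneg_left h2 (by positivity)
          linarith
        have h5 : 0 ≤ b1 ^ 2 * (k + t + 2) ^ 2 := by positivity
        have h6 := mul_le_mul_of_nonneg_left h1 h5
        calc (b1 * (k + 1)) ^ 2 * ((k : ℝ) + t + 2) ^ 2
            = b1 ^ 2 * (k + t + 2) ^ 2 * ((k : ℝ) + 1) ^ 2 := by ring
          _ ≤ _ := h6
          _ = _ := by ring
      have h7 : 0 ≤ 4 * u * b1 := by positivity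
      linarith
    -- passing from m = 1 to m
    have hEm : EE p k (t + 2) 1 - b ^ 2 / p ≤ EE p k (t + 2) m := by
      have hppos : (0 : ℝ) < p := by exact_mod_cast (by omega : 0 < p)
      have hd : EE p k (t + 2) m - EE p k (t + 2) 1
          = b * (1 - m) * (2 * u' - b * ((t : ℝ) + 2) ^ 2 * (1 + m) / p) := by
        unfold EE
        rw [← hb, ← hu'_def]
        push_cast
        field_simp
        ring
      have h1 : (b / p) * (4 * ((t : ℝ) + 1) ^ 2 - (t + 2) ^ 2 * (1 + m))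
          ≤ 2 * u' - b * ((t : ℝ) + 2) ^ 2 * (1 + m) / p := by
        have h2 : (b / p) * (4 * ((t : ℝ) + 1) ^ 2) ≤ 2 * u' := by
          rw [div_mul_eq_mul_div, div_le_iff₀ hppos]
          nlinarith
        have h3 : (b / p) * ((t + 2) ^ 2 * (1 + m)) = b * ((t : ℝ) + 2) ^ 2 * (1 + m) / p := by
          ring
        rw [mul_sub, h3]; linarith
      have h4 := aux_m ((t : ℝ) + 2) m (by linarith) hm2
      have h5 : b * (1 - m) * ((b / p) * (4 * ((t : ℝ) + 1) ^ 2 - (t + 2) ^ 2 * (1 + m)))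
          ≤ b * (1 - m) * (2 * u' - b * ((t : ℝ) + 2) ^ 2 * (1 + m) / p) := by
        apply mul_le_mul_of_nonneg_left h1
        have : 0 ≤ 1 - m := by linarith
        positivity
      have h6 : b * (1 - m) * ((b / p) * (4 * ((t : ℝ) + 1) ^ 2 - (t + 2) ^ 2 * (1 + m)))
          = (b ^ 2 / p) * ((1 - m) * (4 * ((t : ℝ) + 2 - 1) ^ 2 - (t + 2) ^ 2 * (1 + m))) := by
        ring
      have h7 : (b ^ 2 / p) * (-1) ≤
          (b ^ 2 / p) * ((1 - m) * (4 * ((t : ℝ) + 2 - 1) ^ 2 - (t + 2) ^ 2 * (1 + m))) := by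
        apply mul_le_mul_of_nonneg_left h4 (by positivity)
      linarith
    linarith

end Pool.Agent.MP_cb3c9c_an
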