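import Pool.Agent.MP_cb3c9c_an.TwoBlockFourier

set_option autoImplicit false

open Finset
open scoped BigOperators

namespace Pool.Agent.MP_cb3c9c_an.TwoBlock

variable {n : ℕ}

lemma Ex_boolprod {γ : Type} [Fintype γ] (g : Bool × γ → ℝ) :
    Ex g = (1 / 2) * (Ex (fun y => g (false, y)) + Ex (fun y => g (true, y))) := by
  simp only [Ex, Fintype.sum_prod_type, Fintype.sum_bool, Fintype.card_prod, Fintype.card_bool]
  push_cast
  rw [← add_div, ← mul_div_assoc, mul_comm (2 : ℝ), ← div_div]
  ring

/-- xor of all coordinates with a bit -/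
def tw (e : Bool) (x : Fin n → Bool) : Fin n → Bool := fun i => xor e (x i)

lemma tw_false (x : Fin n → Bool) : tw false x = x := by funext i; simp [tw]

lemma tw_true (x : Fin n → Bool) : tw true x = fun i => !x i := by funext i; simp [tw]

/-- the equivalence -/
def twEquiv (e : Bool) : (Fin n → Bool) ≃ (Fin n → Bool) where
  toFun := tw e
  invFun := tw e
  left_inv x := by funext i; simp [tw]
  right_inv x := by funext i; simp [tw]

/-- The affine form. -/
def aff (a0 : ℝ) (a : Fin n → ℝ) (x : Fin n → Bool) : ℝ := a0 + ∑ i, a i * sb (x i)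

/-- the `U` part -/
def XX (a : Fin n → ℝ) (z x : Fin n → Bool) : ℝ := ∑ i, if z i then a i * sb (x i) else 0

/-- the rest -/
def YY (a0 : ℝ) (a : Fin n → ℝ) (z : Fin n → Bool) (p : Bool × (Fin n → Bool)) : ℝ :=
  sb p.1 * (a0 + ∑ i, if z i then 0 else a i * sb (p.2 i))

lemma key_eq (a0 : ℝ) (a : Fin n → ℝ) (z x : Fin n → Bool) (e : Bool) (y : Fin n → Bool) :
    XX a z x + YY a0 a z (e, y) = sb e * aff a0 a (mix z (tw e x) y) := by
  have h1 : XX a z x = sb e * ∑ i, if z i then a i * sb (tw e x i) else 0 := by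
    unfold XX
    rw [mul_sum]
    apply Finset.sum_congr rfl
    intro i _
    split_ifs
    · simp only [tw, sb_xor]
      have := sb_mul_self e
      calc a i * sb (x i) = a i * (sb e * sb e) * sb (x i) := by rw [this]; ring
        _ = _ := by ring
    · ring
  rw [h1]
  unfold YY aff
  simp only
  have h2 : ∀ i, a i * sb (mix z (tw e x) y i) =
      (if z i then a i * sb (tw e x i) else 0) + (if z i then 0 else a i * sb (y i)) := by
    intro i
    unfold mix
    split_ifs <;> simp
  simp only [h2, Finset.sum_add_distrib]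
  ring

lemma sg_sb_mul (e : Bool) (t : ℝ) : sg (sb e * t) = sb e * sg t := by
  cases e
  · simp
  · simp [sg_neg]

section
variable {f : (Fin n → Bool) → ℝ} {a : Fin n → ℝ} {a0 : ℝ}

lemma f_eq_sg (h1 : ∀ x, f x = 1 ∨ f x = -1) (h2 : ∀ x, 0 < f x * aff a0 a x) (x : Fin n → Bool) :
    f x = sg (aff a0 a x) := by
  have h := h2 x
  rcases h1 x with h' | h'
  · rw [h'] at h ⊢
    rw [sg_pos (by linarith)]
  · rw [h'] at h ⊢
    rw [sg_neg' (by linarith)]

/-- The inequality for one partition. -/
theorem block_ineq (h1 : ∀ x, f x = 1 ∨ f x = -1) (h2 : ∀ x, 0 < f x * aff a0 a x)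
    (z : Fin n → Bool) :
    2 / 3 + (1 / 4) * (∑ S : Finset (Fin n), fh f S ^ 2 * chi S z) ^ 2 ≤
      (∑ S : Finset (Fin n), (if Odd S.card then fh f S ^ 2 * inU z S else 0)) +
        ∑ S : Finset (Fin n), fh f S ^ 2 * outU z S := by
  have hf := f_eq_sg h1 h2
  have hsg : ∀ x e y, sg (XX a z x + YY a0 a z (e, y)) = sb e * f (mix z (tw e x) y) := by
    intro x e y
    rw [key_eq, sg_sb_mul, ← hf]
  have hne : ∀ x (p : Bool × (Fin n → Bool)), XX a z x + YY a0 a z p ≠ 0 := by
    rintro x ⟨e, y⟩ h0
    have := hsg x e y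
    rw [h0, sg_zero] at this
    rcases h1 (mix z (tw e x) y) with h' | h' <;> cases e <;> simp_all
  -- the involutions
  have hν : ∀ x, XX a z (twEquiv true x) = - XX a z x := by
    intro x
    unfold XX
    rw [← Finset.sum_neg_distrib]
    apply Finset.sum_congr rfl
    intro i _
    simp only [twEquiv, Equiv.coe_fn_mk, tw_true, sb_not]
    split_ifs <;> ring
  let μ : (Bool × (Fin n → Bool)) ≃ (Bool × (Fin n → Bool)) :=
    { toFun := fun p => (!p.1, p.2)
      invFun := fun p => (!p.1, p.2)
      left_inv := fun p => by simp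
      right_inv := fun p => by simp }
  have hμ : ∀ p, YY a0 a z (μ p) = - YY a0 a z p := by
    intro p
    unfold YY
    simp only [μ, Equiv.coe_fn_mk, sb_not]
    ring
  have main := core (XX a z) (YY a0 a z) (twEquiv true) μ hν hμ hne
  -- first term
  have t1 : (Ex fun x => (Ex fun p => sg (XX a z x + YY a0 a z p)) ^ 2) =
      ∑ S : Finset (Fin n), (if Odd S.card then fh f S ^ 2 * inU z S else 0) := by
    have e1 : ∀ x, (Ex fun p => sg (XX a z x + YY a0 a z p)) =
        ∑ S : Finset (Fin n), (if Odd S.card then fh f S * inU z S else 0) * chi S x := by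
      intro x
      rw [Ex_boolprod]
      simp only [hsg, tw_false, tw_true]
      have e2 : ∀ u : Fin n → Bool, (Ex fun y => f (mix z u y)) =
          ∑ S : Finset (Fin n), fh f S * (inU z S * chi S u) := by
        intro u
        have : (fun y => f (mix z u y)) = fun y => ∑ S : Finset (Fin n), fh f S * chi S (mix z u y) := by
          funext y; exact inversion f _
        rw [this, Ex_sum]
        simp only [Ex_mul, chi_mix_left]
      simp only [sb_false, sb_true, Ex_mul, e2, chi_not]
      rw [one_mul, neg_one_mul, ← sub_eq_add_neg, ← Finset.sum_sub_distrib, mul_sum]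
      apply Finset.sum_congr rfl
      intro S _
      split_ifs with hS
      · rw [hS.neg_one_pow]; ring
      · rw [(Nat.not_odd_iff_even.mp hS).neg_one_pow]; ring
    simp only [e1]
    rw [parseval']
    apply Finset.sum_congr rfl
    intro S _
    split_ifs
    · rw [mul_pow, inU_sq]
    · ring
  -- second term
  have t2 : (Ex fun p => (Ex fun x => sg (XX a z x + YY a0 a z p)) ^ 2) =
      ∑ S : Finset (Fin n), fh f S ^ 2 * outU z S := by
    have e1 : ∀ e y, (Ex fun x => sg (XX a z x + YY a0 a z (e, y))) =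
        sb e * ∑ S : Finset (Fin n), (fh f S * outU z S) * chi S y := by
      intro e y
      simp only [hsg, Ex_mul]
      congr 1
      have e3 : (Ex fun x => f (mix z (tw e x) y)) = Ex fun x => f (mix z x y) :=
        Ex_equiv (twEquiv e) (fun x => f (mix z x y))
      rw [e3]
      have : (fun x => f (mix z x y)) = fun x => ∑ S : Finset (Fin n), fh f S * chi S (mix z x y) := by
        funext x; exact inversion f _
      rw [this, Ex_sum]
      simp only [Ex_mul, chi_mix_right]
      apply Finset.sum_congr rfl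
      intro S _
      ring
    rw [Ex_boolprod]
    simp only [e1, mul_pow]
    have e4 : ∀ e, sb e ^ 2 = 1 := fun e => by rw [pow_two, sb_mul_self]
    simp only [e4, one_mul]
    rw [parseval']
    simp only [mul_pow, outU_sq]
    ring
  -- the correlation
  have t3 : (Ex fun x => Ex fun p => sg (XX a z x + YY a0 a z p) * sg (XX a z x - YY a0 a z p)) =
      - ∑ S : Finset (Fin n), fh f S ^ 2 * chi S z := by
    have e1 : ∀ x e y, sg (XX a z x - YY a0 a z (e, y)) = - (sb e * f (mix z (tw (!e) x) y)) := by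
      intro x e y
      have : XX a z x - YY a0 a z (e, y) = XX a z x + YY a0 a z (!e, y) := by
        unfold YY; simp only [sb_not]; ring
      rw [this, hsg, sb_not]; ring
    have e2 : ∀ x e y, sg (XX a z x + YY a0 a z (e, y)) * sg (XX a z x - YY a0 a z (e, y)) =
        - ((fun v => f v * f (flip z v)) (mix z (tw e x) y)) := by
      intro x e y
      rw [hsg, e1]
      have : flip z (mix z (tw e x) y) = mix z (tw (!e) x) y := by
        funext i
        unfold flip mix tw
        cases z i <;> cases e <;> simp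
      simp only [this]
      have := sb_mul_self e
      calc sb e * f (mix z (tw e x) y) * -(sb e * f (mix z (tw (!e) x) y))
          = - ((sb e * sb e) * (f (mix z (tw e x) y) * f (mix z (tw (!e) x) y))) := by ring
        _ = _ := by rw [this, one_mul]
    have e3 : (Ex fun x => Ex fun p => sg (XX a z x + YY a0 a z p) * sg (XX a z x - YY a0 a z p)) =
        Ex fun x => (1 / 2) * ((Ex fun y => - ((fun v => f v * f (flip z v)) (mix z (tw false x) y))) +
          Ex fun y => - ((fun v => f v * f (flip z v)) (mix z (tw true x) y))) := by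
      congr 1; funext x
      rw [Ex_boolprod]
      simp only [e2]
    rw [e3, Ex_mul, Ex_add]
    have e5 : ∀ e : Bool, (Ex fun x => Ex fun y => - ((fun v => f v * f (flip z v)) (mix z (tw e x) y))) =
        - ∑ S : Finset (Fin n), fh f S ^ 2 * chi S z := by
      intro e
      have e6 : (Ex fun x => Ex fun y => - ((fun v => f v * f (flip z v)) (mix z (tw e x) y))) =
          Ex fun x => Ex fun y => - ((fun v => f v * f (flip z v)) (mix z x y)) :=
        Ex_equiv (twEquiv e) (fun x => Ex fun y => - ((fun v => f v * f (flip z v)) (mix z x y)))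
      rw [e6, ← Ex_flip f z, ← Ex_mix (fun v => f v * f (flip z v)) z]
      have : ∀ g : (Fin n → Bool) → (Fin n → Bool) → ℝ, (Ex fun x => Ex fun y => - g x y) =
          - Ex fun x => Ex fun y => g x y := by
        intro g
        have h3 : ∀ x, (Ex fun y => - g x y) = (-1) * Ex fun y => g x y := by
          intro x; rw [← Ex_mul]; congr 1; funext y; ring
        simp only [h3, Ex_mul]; ring
      exact this _
    rw [e5, e5]; ring
  rw [t1, t2, t3, neg_sq] at main
  exact main

/-- The averaged inequality. -/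
theorem avg_ineq (h1 : ∀ x, f x = 1 ∨ f x = -1) (h2 : ∀ x, 0 < f x * aff a0 a x) :
    2 / 3 + (1 / 4) * ∑ S : Finset (Fin n), fh f S ^ 4 ≤
      ∑ S : Finset (Fin n), (if Odd S.card then 2 else 1) * (1 / 2) ^ S.card * fh f S ^ 2 := by
  have h := Ex_mono (fun z => block_ineq h1 h2 z)
  rw [Ex_add, Ex_const, Ex_mul, parseval' (fun S => fh f S ^ 2), Ex_add, Ex_sum, Ex_sum] at h
  have e1 : ∑ S : Finset (Fin n), (fh f S ^ 2) ^ 2 = ∑ S : Finset (Fin n), fh f S ^ 4 := by
    apply Finset.sum_congr rfl; intro S _; ring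
  rw [e1] at h
  refine h.trans (le_of_eq ?_)
  rw [← Finset.sum_add_distrib]
  apply Finset.sum_congr rfl
  intro S _
  rw [Ex_mul, Ex_outU]
  split_ifs with hS
  · rw [Ex_mul, Ex_inU]; ring
  · rw [Ex_const]; ring

lemma total (h1 : ∀ x, f x = 1 ∨ f x = -1) : ∑ S : Finset (Fin n), fh f S ^ 2 = 1 := by
  rw [← parseval]
  have : (fun x => f x ^ 2) = fun _ => (1 : ℝ) := by
    funext x; rcases h1 x with h | h <;> rw [h] <;> norm_num
  rw [this, Ex_const]

lemma coef_le (k : ℕ) (hk : 2 ≤ k) : (if Odd k then (2 : ℝ) else 1) * (1 / 2) ^ k ≤ 1 / 4 := by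
  rcases Nat.lt_or_ge k 3 with h | h
  · have : k = 2 := by omega
    subst this
    norm_num [Nat.odd_iff]
  · have h3 : ((1 : ℝ) / 2) ^ k ≤ (1 / 2) ^ 3 :=
      pow_le_pow_of_le_one (by norm_num) (by norm_num) h
    have h4 : (if Odd k then (2 : ℝ) else 1) ≤ 2 := by split_ifs <;> norm_num
    have h5 : (0 : ℝ) ≤ (if Odd k then (2 : ℝ) else 1) := by split_ifs <;> norm_num
    have h6 : (0 : ℝ) ≤ (1 / 2) ^ k := by positivity
    calc (if Odd k then (2 : ℝ) else 1) * (1 / 2) ^ k ≤ 2 * (1 / 2) ^ 3 :=
          mul_le_mul h4 h3 h6 (by norm_num)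
      _ = 1 / 4 := by norm_num

/-- The level-at-most-one weight. -/
theorem weight_ineq (h1 : ∀ x, f x = 1 ∨ f x = -1) (h2 : ∀ x, 0 < f x * aff a0 a x) :
    5 / 9 + (1 / 3) * ∑ S : Finset (Fin n), fh f S ^ 4 ≤
      fh f ∅ ^ 2 + ∑ i, fh f {i} ^ 2 := by
  have h := avg_ineq h1 h2
  have ht := total (f := f) h1
  set W : ℝ := ∑ S ∈ univ.filter (fun S : Finset (Fin n) => S.card ≤ 1), fh f S ^ 2 with hW
  have hWe : W = fh f ∅ ^ 2 + ∑ i, fh f {i} ^ 2 := by
    have hset : (univ.filter (fun S : Finset (Fin n) => S.card ≤ 1)) =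
        insert ∅ ((univ : Finset (Fin n)).image fun i => ({i} : Finset (Fin n))) := by
      ext S
      simp only [mem_filter, mem_univ, true_and, mem_insert, mem_image]
      constructor
      · intro hS
        rcases Nat.lt_or_ge S.card 1 with h0 | h0
        · left; exact Finset.card_eq_zero.mp (by omega)
        · right
          obtain ⟨i, hi⟩ := Finset.card_eq_one.mp (le_antisymm hS h0)
          exact ⟨i, hi.symm⟩
      · rintro (h0 | ⟨i, rfl⟩)
        · subst h0; simp
        · simp
    rw [hW, hset, Finset.sum_insert, Finset.sum_image]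
    · intro i _ j _ hij; simpa using hij
    · simp
  rw [← hWe]
  have hsplit : ∀ g : Finset (Fin n) → ℝ, ∑ S : Finset (Fin n), g S =
      ∑ S ∈ univ.filter (fun S : Finset (Fin n) => S.card ≤ 1), g S +
        ∑ S ∈ univ.filter (fun S : Finset (Fin n) => ¬ S.card ≤ 1), g S := by
    intro g
    rw [Finset.sum_filter_add_sum_filter_not]
  rw [hsplit] at ht
  rw [hsplit (fun S => (if Odd S.card then 2 else 1) * (1 / 2) ^ S.card * fh f S ^ 2)] at h
  have b1 : ∑ S ∈ univ.filter (fun S : Finset (Fin n) => S.card ≤ 1),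
      (if Odd S.card then 2 else 1) * (1 / 2) ^ S.card * fh f S ^ 2 ≤ W := by
    apply Finset.sum_le_sum
    intro S hS
    simp only [mem_filter, mem_univ, true_and] at hS
    have : (if Odd S.card then (2 : ℝ) else 1) * (1 / 2) ^ S.card = 1 := by
      interval_cases S.card <;> norm_num [Nat.odd_iff]
    rw [this, one_mul]
  have b2 : ∑ S ∈ univ.filter (fun S : Finset (Fin n) => ¬ S.card ≤ 1),
      (if Odd S.card then 2 else 1) * (1 / 2) ^ S.card * fh f S ^ 2 ≤
      (1 / 4) * ∑ S ∈ univ.filter (fun S : Finset (Fin n) => ¬ S.card ≤ 1), fh f S ^ 2 := by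
    rw [mul_sum]
    apply Finset.sum_le_sum
    intro S hS
    simp only [mem_filter, mem_univ, true_and] at hS
    exact mul_le_mul_of_nonneg_right (coef_le _ (by omega)) (sq_nonneg _)
  linarith

/-- Noise stability at `1/2`. -/
theorem stab_ineq (h1 : ∀ x, f x = 1 ∨ f x = -1) (h2 : ∀ x, 0 < f x * aff a0 a x) :
    1 / 3 + (1 / 8) * ∑ S : Finset (Fin n), fh f S ^ 4 ≤
      ∑ S : Finset (Fin n), (1 / 2) ^ S.card * fh f S ^ 2 := by
  have h := avg_ineq h1 h2
  have h3 : ∑ S : Finset (Fin n), (if Odd S.card then 2 else 1) * (1 / 2) ^ S.card * fh f S ^ 2 ≤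
      2 * ∑ S : Finset (Fin n), (1 / 2) ^ S.card * fh f S ^ 2 := by
    rw [mul_sum]
    apply Finset.sum_le_sum
    intro S _
    have : (if Odd S.card then (2 : ℝ) else 1) ≤ 2 := by split_ifs <;> norm_num
    calc (if Odd S.card then (2 : ℝ) else 1) * (1 / 2) ^ S.card * fh f S ^ 2
        = (if Odd S.card then (2 : ℝ) else 1) * ((1 / 2) ^ S.card * fh f S ^ 2) := by ring
      _ ≤ 2 * ((1 / 2) ^ S.card * fh f S ^ 2) :=
        mul_le_mul_of_nonneg_right this (by positivity)
  linarith

/-- Mehler type kernel: noise stability as a double sum. -/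
lemma stab_kernel (f : (Fin n → Bool) → ℝ) :
    ∑ S : Finset (Fin n), (1 / 2) ^ S.card * fh f S ^ 2 =
      ∑ x, ∑ y, (∏ i, (if x i = y i then (3 / 4 : ℝ) else 1 / 4)) * (f x * f y) / 2 ^ n := by
  have h2 : (2 : ℝ) ^ n ≠ 0 := by positivity
  have key : ∀ x y : Fin n → Bool, ∑ S : Finset (Fin n), (1 / 2 : ℝ) ^ S.card * (chi S x * chi S y) =
      2 ^ n * ∏ i, (if x i = y i then (3 / 4 : ℝ) else 1 / 4) := by
    intro x y
    have h : ∑ S : Finset (Fin n), (1 / 2 : ℝ) ^ S.card * (chi S x * chi S y) =
        ∏ i, (1 + (1 / 2) * (sb (x i) * sb (y i))) := by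
      rw [Finset.prod_one_add (ι := Fin n) (f := fun i => (1 / 2) * (sb (x i) * sb (y i)))
        (univ : Finset (Fin n)), Finset.powerset_univ]
      apply Finset.sum_congr rfl
      intro S _
      unfold chi
      rw [← Finset.prod_mul_distrib, ← Finset.prod_const, ← Finset.prod_mul_distrib]
    rw [h]
    have : (2 : ℝ) ^ n = ∏ _i : Fin n, (2 : ℝ) := by simp
    rw [this, ← Finset.prod_mul_distrib]
    apply Finset.prod_congr rfl
    intro i _
    cases x i <;> cases y i <;> simp <;> norm_num
  have e1 : ∀ S : Finset (Fin n), (1 / 2 : ℝ) ^ S.card * fh f S ^ 2 =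
      ∑ x, ∑ y, ((1 / 2 : ℝ) ^ S.card * (chi S x * chi S y)) * (f x * f y) / (2 ^ n * 2 ^ n) := by
    intro S
    simp only [fh, Ex, card_cube]
    rw [div_pow (∑ x, f x * chi S x), pow_two (∑ x, f x * chi S x), Finset.sum_mul_sum,
      ← pow_two ((2 : ℝ) ^ n)]
    rw [← mul_div_assoc, mul_sum, sum_div]
    apply Finset.sum_congr rfl; intro x _
    rw [mul_sum, sum_div]
    apply Finset.sum_congr rfl; intro y _
    ring
  simp only [e1]
  rw [Finset.sum_comm]
  apply Finset.sum_congr rfl; intro x _
  rw [Finset.sum_comm]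
  apply Finset.sum_congr rfl; intro y _
  rw [← sum_div, ← Finset.sum_mul, key]
  field_simp

end

end Pool.Agent.MP_cb3c9c_an.TwoBlock
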