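import Mathlib

set_option autoImplicit false

open Finset
open scoped BigOperators

namespace Pool.Agent.MP_cb3c9c_an.TwoBlock

/-- The real sign function. -/
noncomputable def sg (t : ℝ) : ℝ := if 0 < t then 1 else if t < 0 then -1 else 0

lemma sg_pos {t : ℝ} (h : 0 < t) : sg t = 1 := by simp [sg, h]

lemma sg_neg' {t : ℝ} (h : t < 0) : sg t = -1 := by simp [sg, h, not_lt.mpr h.le]

lemma sg_zero : sg 0 = 0 := by simp [sg]

lemma sg_neg (t : ℝ) : sg (-t) = -sg t := by
  rcases lt_trichotomy t 0 with h | h | h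
  · rw [sg_neg' h, sg_pos (by linarith)]; norm_num
  · subst h; simp [sg_zero]
  · rw [sg_pos h, sg_neg' (by linarith)]

lemma sg_sq {t : ℝ} (h : t ≠ 0) : sg t * sg t = 1 := by
  rcases lt_or_gt_of_ne h with h | h
  · rw [sg_neg' h]; norm_num
  · rw [sg_pos h]; norm_num

lemma sg_three (u v w : ℝ) :
    sg (u - v) * sg (u - w) + sg (v - u) * sg (v - w) + sg (w - u) * sg (w - v) ≤ 1 := by
  have e1 : sg (v - u) = - sg (u - v) := by rw [← sg_neg]; congr 1; ring
  have e2 : sg (w - u) = - sg (u - w) := by rw [← sg_neg]; congr 1; ring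
  have e3 : sg (w - v) = - sg (v - w) := by rw [← sg_neg]; congr 1; ring
  rw [e1, e2, e3]
  rcases lt_trichotomy u v with h1 | h1 | h1 <;> rcases lt_trichotomy u w with h2 | h2 | h2 <;>
    rcases lt_trichotomy v w with h3 | h3 | h3
  all_goals first
    | (exfalso; linarith)
    | skip
  all_goals
    simp only [sg]
    split_ifs <;> first | (exfalso; linarith) | norm_num

lemma sg_between {u v y : ℝ} (hu : u - y ≠ 0) (hv : v - y ≠ 0) :
    (sg (u - y) - sg (v - y)) * sg (u - v) = 1 - sg (u - y) * sg (v - y) := by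
  rcases lt_or_gt_of_ne hu with h1 | h1 <;> rcases lt_or_gt_of_ne hv with h2 | h2
  · rw [sg_neg' h1, sg_neg' h2]; norm_num
  · rw [sg_neg' h1, sg_pos h2, sg_neg' (by linarith : u - v < 0)]; norm_num
  · rw [sg_pos h1, sg_neg' h2, sg_pos (by linarith : 0 < u - v)]; norm_num
  · rw [sg_pos h1, sg_pos h2]; norm_num

lemma sg_pm {x y : ℝ} (hx : x ≠ 0) (h1 : x + y ≠ 0) (h2 : x - y ≠ 0) :
    sg x * (sg (x + y) + sg (x - y)) = 1 + sg (x + y) * sg (x - y) := by
  rcases lt_or_gt_of_ne hx with h | h <;> rcases lt_or_gt_of_ne h1 with h1 | h1 <;>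
    rcases lt_or_gt_of_ne h2 with h2 | h2
  all_goals first
    | (exfalso; linarith)
    | skip
  · rw [sg_neg' h, sg_neg' h1, sg_neg' h2]; norm_num
  · rw [sg_neg' h, sg_neg' h1, sg_pos h2]; norm_num
  · rw [sg_neg' h, sg_pos h1, sg_neg' h2]; norm_num
  · rw [sg_pos h, sg_neg' h1, sg_pos h2]; norm_num
  · rw [sg_pos h, sg_pos h1, sg_neg' h2]; norm_num
  · rw [sg_pos h, sg_pos h1, sg_pos h2]; norm_num

variable {α β : Type} [Fintype α] [Fintype β]

/-- The mean over a finite type. -/
noncomputable def Ex {α : Type} [Fintype α] (f : α → ℝ) : ℝ := (∑ a, f a) / (Fintype.card α : ℝ)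

lemma Ex_add (f g : α → ℝ) : Ex (fun a => f a + g a) = Ex f + Ex g := by
  simp [Ex, sum_add_distrib, add_div]

lemma Ex_sub (f g : α → ℝ) : Ex (fun a => f a - g a) = Ex f - Ex g := by
  simp [Ex, sum_sub_distrib, sub_div]

lemma Ex_mul (c : ℝ) (f : α → ℝ) : Ex (fun a => c * f a) = c * Ex f := by
  simp only [Ex, ← mul_sum]; ring

lemma Ex_mul' (c : ℝ) (f : α → ℝ) : Ex (fun a => f a * c) = Ex f * c := by
  simp only [Ex, ← sum_mul]; ring

lemma Ex_const [Nonempty α] (c : ℝ) : Ex (fun _ : α => c) = c := by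
  have : (Fintype.card α : ℝ) ≠ 0 := by exact_mod_cast Fintype.card_ne_zero
  simp [Ex]

lemma Ex_comm (f : α → β → ℝ) : Ex (fun a => Ex (fun b => f a b)) = Ex (fun b => Ex (fun a => f a b)) := by
  simp only [Ex]
  rw [← sum_div, ← sum_div, sum_comm, div_div, div_div, mul_comm]

lemma Ex_mono {f g : α → ℝ} (h : ∀ a, f a ≤ g a) : Ex f ≤ Ex g := by
  unfold Ex
  apply div_le_div_of_nonneg_right (sum_le_sum fun a _ => h a) (by positivity)

lemma Ex_nonneg {f : α → ℝ} (h : ∀ a, 0 ≤ f a) : 0 ≤ Ex f := by
  unfold Ex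
  apply div_nonneg (sum_nonneg fun a _ => h a) (by positivity)

lemma Ex_equiv (e : α ≃ α) (f : α → ℝ) : Ex (fun a => f (e a)) = Ex f := by
  unfold Ex
  rw [Equiv.sum_comp e f]

/-- Core lemma, under the assumption that the first form never vanishes. -/
lemma core0 [Nonempty α] [Nonempty β] (X : α → ℝ) (Y : β → ℝ) (ν : α ≃ α) (μ : β ≃ β)
    (hν : ∀ a, X (ν a) = - X a) (hμ : ∀ b, Y (μ b) = - Y b)
    (hne : ∀ a b, X a + Y b ≠ 0) (h0 : ∀ a, X a ≠ 0) :
    2 / 3 + (1 / 4) * (Ex fun a => Ex fun b => sg (X a + Y b) * sg (X a - Y b)) ^ 2 ≤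
      (Ex fun a => (Ex fun b => sg (X a + Y b)) ^ 2) +
        (Ex fun b => (Ex fun a => sg (X a + Y b)) ^ 2) := by
  set h : α → ℝ := fun a => Ex fun b => sg (X a + Y b) with hh
  set g : β → ℝ := fun b => Ex fun a => sg (X a + Y b) with hg
  set D : α → ℝ := fun a => Ex fun a' => sg (X a - X a') with hD
  set s : α → ℝ := fun a => sg (X a) with hs
  set c : ℝ := Ex fun a => Ex fun b => sg (X a + Y b) * sg (X a - Y b) with hc
  have hne' : ∀ a b, X a - Y b ≠ 0 := by
    intro a b
    have := hne a (μ b)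
    rw [hμ] at this
    exact this
  -- (1)
  have h1 : 2 * (Ex fun a => h a * D a) = 1 - Ex fun b => g b ^ 2 := by
    have e1 : (Ex fun a => h a * D a) =
        Ex fun a => Ex fun a' => Ex fun b => sg (X a + Y b) * sg (X a - X a') := by
      congr 1; funext a
      simp only [hh, hD]
      rw [← Ex_mul]
      congr 1; funext a'
      rw [← Ex_mul']
    have e2 : (Ex fun a => h a * D a) =
        Ex fun a => Ex fun a' => Ex fun b => - (sg (X a' + Y b) * sg (X a - X a')) := by
      rw [e1, Ex_comm]
      congr 1; funext a; congr 1; funext a'; congr 1; funext b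
      have : sg (X a' - X a) = - sg (X a - X a') := by rw [← sg_neg]; congr 1; ring
      rw [this]; ring
    have e3 : (Ex fun a => Ex fun a' => Ex fun b => (1 - sg (X a + Y b) * sg (X a' + Y b))) =
        1 - Ex fun b => g b ^ 2 := by
      have : (Ex fun b => g b ^ 2) =
          Ex fun a => Ex fun a' => Ex fun b => sg (X a + Y b) * sg (X a' + Y b) := by
        have : (Ex fun b => g b ^ 2) =
            Ex fun b => Ex fun a => Ex fun a' => sg (X a + Y b) * sg (X a' + Y b) := by
          congr 1; funext b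
          simp only [hg]
          rw [pow_two, ← Ex_mul']
          congr 1; funext a
          rw [← Ex_mul]
        rw [this, Ex_comm]
        congr 1; funext a
        rw [Ex_comm]
      rw [this]
      simp only [Ex_sub, Ex_const]
    calc 2 * (Ex fun a => h a * D a) = (Ex fun a => h a * D a) + (Ex fun a => h a * D a) := by ring
      _ = _ := by
        nth_rewrite 1 [e1]
        rw [e2, ← e3, ← Ex_add]
        congr 1; funext a
        rw [← Ex_add]
        congr 1; funext a'
        rw [← Ex_add]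
        congr 1; funext b
        have := sg_between (u := X a) (v := X a') (y := - Y b)
          (by simpa using hne a b) (by simpa using hne a' b)
        simp only [sub_neg_eq_add] at this
        linarith
  -- (2)
  have h2 : (Ex fun a => D a ^ 2) ≤ 1 / 3 := by
    have e1 : (Ex fun a => D a ^ 2) =
        Ex fun a => Ex fun a' => Ex fun a'' => sg (X a - X a') * sg (X a - X a'') := by
      congr 1; funext a
      simp only [hD]
      rw [pow_two, ← Ex_mul']
      congr 1; funext a'
      rw [← Ex_mul]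
    have e2 : (Ex fun a => D a ^ 2) =
        Ex fun a => Ex fun a' => Ex fun a'' => sg (X a' - X a) * sg (X a' - X a'') := by
      rw [e1, Ex_comm]
    have e3 : (Ex fun a => D a ^ 2) =
        Ex fun a => Ex fun a' => Ex fun a'' => sg (X a'' - X a) * sg (X a'' - X a') := by
      rw [e1, Ex_comm]
      have : ∀ a' : α, (Ex fun a => Ex fun a'' => sg (X a - X a') * sg (X a - X a'')) =
          Ex fun a'' => Ex fun a => sg (X a - X a') * sg (X a - X a'') := fun a' => Ex_comm _
      simp only [this]
    have e4 : 3 * (Ex fun a => D a ^ 2) ≤ 1 := by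
      calc 3 * (Ex fun a => D a ^ 2) = (Ex fun a => D a ^ 2) + (Ex fun a => D a ^ 2) +
            (Ex fun a => D a ^ 2) := by ring
        _ = Ex fun a => Ex fun a' => Ex fun a'' => (sg (X a - X a') * sg (X a - X a'') +
              sg (X a' - X a) * sg (X a' - X a'') + sg (X a'' - X a) * sg (X a'' - X a')) := by
            simp only [Ex_add]
            rw [← e1, ← e2, ← e3]
        _ ≤ Ex fun a : α => Ex fun a' : α => Ex fun a'' : α => (1 : ℝ) :=
            Ex_mono fun a => Ex_mono fun a' => Ex_mono fun a'' => sg_three _ _ _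
        _ = 1 := by simp only [Ex_const]
    linarith
  -- (3)
  have hs0 : Ex s = 0 := by
    have := Ex_equiv ν s
    have h' : (Ex fun a => s (ν a)) = - Ex s := by
      have : (fun a => s (ν a)) = fun a => (-1) * s a := by
        funext a; simp only [hs, hν, sg_neg]; ring
      rw [this, Ex_mul]; ring
    linarith
  have h3 : 2 * (Ex fun a => s a * D a) = 1 := by
    have e1 : (Ex fun a => s a * D a) =
        Ex fun a => Ex fun a' => s a * sg (X a - X a') := by
      congr 1; funext a
      simp only [hD]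
      rw [← Ex_mul]
    have e2 : (Ex fun a => s a * D a) =
        Ex fun a => Ex fun a' => - (s a' * sg (X a - X a')) := by
      rw [e1, Ex_comm]
      congr 1; funext a; congr 1; funext a'
      have : sg (X a' - X a) = - sg (X a - X a') := by rw [← sg_neg]; congr 1; ring
      rw [this]; ring
    calc 2 * (Ex fun a => s a * D a) = (Ex fun a => s a * D a) + (Ex fun a => s a * D a) := by ring
      _ = Ex fun a => Ex fun a' => (1 - s a * s a') := by
        nth_rewrite 1 [e1]
        rw [e2, ← Ex_add]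
        congr 1; funext a
        rw [← Ex_add]
        congr 1; funext a'
        have := sg_between (u := X a) (v := X a') (y := 0)
          (by simpa using h0 a) (by simpa using h0 a')
        simp only [sub_zero] at this
        simp only [hs]
        linarith
      _ = 1 := by
        simp only [Ex_sub, Ex_const, Ex_mul]
        rw [Ex_mul', hs0]; ring
  -- (4)
  have h4 : 2 * (Ex fun a => s a * h a) = 1 + c := by
    have e1 : (Ex fun a => s a * h a) = Ex fun a => Ex fun b => s a * sg (X a + Y b) := by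
      congr 1; funext a
      simp only [hh]
      rw [← Ex_mul]
    have e2 : (Ex fun a => s a * h a) = Ex fun a => Ex fun b => s a * sg (X a - Y b) := by
      rw [e1]
      congr 1; funext a
      rw [← Ex_equiv μ (fun b => s a * sg (X a + Y b))]
      congr 1; funext b
      rw [hμ]; rfl
    calc 2 * (Ex fun a => s a * h a) = (Ex fun a => s a * h a) + (Ex fun a => s a * h a) := by ring
      _ = Ex fun a => Ex fun b => (1 + sg (X a + Y b) * sg (X a - Y b)) := by
        nth_rewrite 1 [e1]
        rw [e2, ← Ex_add]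
        congr 1; funext a
        rw [← Ex_add]
        congr 1; funext b
        have := sg_pm (x := X a) (y := Y b) (h0 a) (hne a b) (hne' a b)
        simp only [hs]
        linarith
      _ = 1 + c := by
        simp only [Ex_add, Ex_const, hc]
  -- (5)
  have hss : (Ex fun a => s a * s a) = 1 := by
    have : (fun a => s a * s a) = fun _ => (1 : ℝ) := by
      funext a; exact sg_sq (h0 a)
    rw [this, Ex_const]
  have h5 : 0 ≤ Ex fun a => (h a - D a - c / 2 * s a) ^ 2 := Ex_nonneg fun a => sq_nonneg _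
  have h6 : (Ex fun a => (h a - D a - c / 2 * s a) ^ 2) =
      (Ex fun a => h a ^ 2) - 2 * (Ex fun a => h a * D a) + (Ex fun a => D a ^ 2)
        - c * (Ex fun a => s a * h a) + c * (Ex fun a => s a * D a)
        + c ^ 2 / 4 * (Ex fun a => s a * s a) := by
    rw [← Ex_mul, ← Ex_mul, ← Ex_mul, ← Ex_mul, ← Ex_sub, ← Ex_add, ← Ex_sub, ← Ex_add, ← Ex_add]
    congr 1; funext a; ring
  have h3' : (Ex fun a => s a * D a) = 1 / 2 := by linarith
  have h4' : (Ex fun a => s a * h a) = (1 + c) / 2 := by linarith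
  rw [h6, hss, h3', h4'] at h5
  change 2 / 3 + 1 / 4 * c ^ 2 ≤ (Ex fun a => h a ^ 2) + Ex fun b => g b ^ 2
  nlinarith [h1, h2, h5]

/-- **The two-block inequality.** -/
theorem core [Nonempty α] [Nonempty β] (X : α → ℝ) (Y : β → ℝ) (ν : α ≃ α) (μ : β ≃ β)
    (hν : ∀ a, X (ν a) = - X a) (hμ : ∀ b, Y (μ b) = - Y b)
    (hne : ∀ a b, X a + Y b ≠ 0) :
    2 / 3 + (1 / 4) * (Ex fun a => Ex fun b => sg (X a + Y b) * sg (X a - Y b)) ^ 2 ≤
      (Ex fun a => (Ex fun b => sg (X a + Y b)) ^ 2) +
        (Ex fun b => (Ex fun a => sg (X a + Y b)) ^ 2) := by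
  by_cases h0 : ∀ a, X a ≠ 0
  · exact core0 X Y ν μ hν hμ hne h0
  · push Not at h0
    obtain ⟨a0, ha0⟩ := h0
    have h0' : ∀ b, Y b ≠ 0 := by
      intro b hb
      exact hne a0 b (by rw [ha0, hb]; ring)
    have := core0 Y X μ ν hμ hν (fun b a => by rw [add_comm]; exact hne a b) h0'
    have e1 : (Ex fun a => Ex fun b => sg (X a + Y b) * sg (X a - Y b)) =
        - (Ex fun b => Ex fun a => sg (Y b + X a) * sg (Y b - X a)) := by
      rw [Ex_comm]
      have : (fun b => Ex fun a => sg (X a + Y b) * sg (X a - Y b)) =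
          fun b => (-1) * Ex fun a => sg (Y b + X a) * sg (Y b - X a) := by
        funext b
        rw [← Ex_mul]
        congr 1; funext a
        have : sg (Y b - X a) = - sg (X a - Y b) := by rw [← sg_neg]; congr 1; ring
        rw [this, add_comm (Y b)]; ring
      rw [this, Ex_mul]; ring
    have e2 : (Ex fun a => (Ex fun b => sg (Y b + X a)) ^ 2) =
        Ex fun a => (Ex fun b => sg (X a + Y b)) ^ 2 := by
      simp only [add_comm]
    have e3 : (Ex fun b => (Ex fun a => sg (Y b + X a)) ^ 2) =
        Ex fun b => (Ex fun a => sg (X a + Y b)) ^ 2 := by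
      simp only [add_comm]
    rw [e1, neg_sq]
    rw [e2, e3] at this
    linarith

end Pool.Agent.MP_cb3c9c_an.TwoBlock
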