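import Pool.Agent.MP_cb3c9c_an.TwoBlockCore

set_option autoImplicit false

open Finset
open scoped BigOperators

namespace Pool.Agent.MP_cb3c9c_an.TwoBlock

/-- The sign of a bit. -/
def sb (b : Bool) : ℝ := if b then -1 else 1

@[simp] lemma sb_true : sb true = -1 := by simp [sb]
@[simp] lemma sb_false : sb false = 1 := by simp [sb]

lemma sb_not (b : Bool) : sb (!b) = - sb b := by cases b <;> simp

lemma sb_mul_self (b : Bool) : sb b * sb b = 1 := by cases b <;> simp

lemma sb_xor (a b : Bool) : sb (xor a b) = sb a * sb b := by cases a <;> cases b <;> simp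

variable {n : ℕ}

/-- The character `χ_S`. -/
def chi (S : Finset (Fin n)) (x : Fin n → Bool) : ℝ := ∏ i ∈ S, sb (x i)

/-- The Fourier coefficient. -/
noncomputable def fh (f : (Fin n → Bool) → ℝ) (S : Finset (Fin n)) : ℝ := Ex fun x => f x * chi S x

lemma card_cube : (Fintype.card (Fin n → Bool) : ℝ) = 2 ^ n := by simp

lemma Ex_sum {ι α : Type} [Fintype α] (s : Finset ι) (f : ι → α → ℝ) :
    Ex (fun a => ∑ i ∈ s, f i a) = ∑ i ∈ s, Ex (f i) := by
  simp only [Ex]
  rw [sum_comm, sum_div]

lemma Ex_prod (g : Fin n → Bool → ℝ) :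
    Ex (fun z : Fin n → Bool => ∏ i, g i (z i)) = ∏ i, ((g i true + g i false) / 2) := by
  unfold Ex
  rw [card_cube]
  have h := Finset.prod_univ_sum (fun _ : Fin n => (univ : Finset Bool)) g
  rw [Fintype.piFinset_univ] at h
  rw [← h]
  simp only [Fintype.sum_bool]
  rw [Finset.prod_div_distrib]
  simp

lemma chi_eq (S : Finset (Fin n)) (x : Fin n → Bool) :
    chi S x = ∏ i, (if i ∈ S then sb (x i) else 1) := by
  unfold chi
  rw [Finset.prod_ite_mem]; simp

lemma chi_sq (S : Finset (Fin n)) (x : Fin n → Bool) : chi S x * chi S x = 1 := by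
  unfold chi
  rw [← Finset.prod_mul_distrib]
  exact Finset.prod_eq_one fun i _ => sb_mul_self _

lemma chi_orth (S T : Finset (Fin n)) :
    Ex (fun x => chi S x * chi T x) = if S = T then 1 else 0 := by
  have h : (fun x : Fin n → Bool => chi S x * chi T x) =
      fun x => ∏ i, (fun (i : Fin n) (b : Bool) =>
        (if i ∈ S then sb b else 1) * (if i ∈ T then sb b else 1)) i (x i) := by
    funext x
    rw [chi_eq, chi_eq, ← Finset.prod_mul_distrib]
  rw [h]
  refine (Ex_prod (fun (i : Fin n) (b : Bool) =>
        (if i ∈ S then sb b else 1) * (if i ∈ T then sb b else 1))).trans ?_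
  split_ifs with hST
  · subst hST
    apply Finset.prod_eq_one
    intro i _
    by_cases hi : i ∈ S <;> simp [hi] <;> norm_num
  · have : ∃ i, ¬ (i ∈ S ↔ i ∈ T) := by
      by_contra hcon
      push Not at hcon
      exact hST (Finset.ext hcon)
    obtain ⟨i, hi⟩ := this
    apply Finset.prod_eq_zero (mem_univ i)
    by_cases h1 : i ∈ S <;> by_cases h2 : i ∈ T <;> simp_all

/-- Fourier inversion. -/
lemma inversion (f : (Fin n → Bool) → ℝ) (x : Fin n → Bool) :
    f x = ∑ S : Finset (Fin n), fh f S * chi S x := by
  have key : ∀ y : Fin n → Bool, ∑ S : Finset (Fin n), chi S y * chi S x =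
      if y = x then (2 : ℝ) ^ n else 0 := by
    intro y
    have h : ∑ S : Finset (Fin n), chi S y * chi S x = ∏ i, (1 + sb (y i) * sb (x i)) := by
      have := Finset.prod_one_add (ι := Fin n) (f := fun i => sb (y i) * sb (x i)) (univ : Finset (Fin n))
      rw [this]
      rw [Finset.powerset_univ]
      apply Finset.sum_congr rfl
      intro S _
      unfold chi
      rw [← Finset.prod_mul_distrib]
    rw [h]
    split_ifs with hyx
    · subst hyx
      simp only [sb_mul_self]
      norm_num
    · have : ∃ i, y i ≠ x i := by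
        by_contra hcon
        push Not at hcon
        exact hyx (funext hcon)
      obtain ⟨i, hi⟩ := this
      apply Finset.prod_eq_zero (mem_univ i)
      cases h1 : y i <;> cases h2 : x i <;> simp_all
  simp only [fh, Ex]
  rw [card_cube]
  have h2 : (2 : ℝ) ^ n ≠ 0 := by positivity
  calc f x = (∑ y, f y * (if y = x then (2 : ℝ) ^ n else 0)) / 2 ^ n := by
        simp [h2]
    _ = (∑ y, f y * ∑ S : Finset (Fin n), chi S y * chi S x) / 2 ^ n := by
        simp only [key]
    _ = ∑ S : Finset (Fin n), (∑ y, f y * chi S y) / 2 ^ n * chi S x := by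
        simp only [mul_sum]
        rw [sum_comm, sum_div]
        apply Finset.sum_congr rfl
        intro S _
        rw [div_mul_eq_mul_div, sum_mul]
        congr 1
        apply Finset.sum_congr rfl
        intro y _
        ring

/-- Parseval for a combination of characters. -/
lemma parseval' (c : Finset (Fin n) → ℝ) :
    Ex (fun x => (∑ S : Finset (Fin n), c S * chi S x) ^ 2) = ∑ S : Finset (Fin n), c S ^ 2 := by
  have h : (fun x : Fin n → Bool => (∑ S : Finset (Fin n), c S * chi S x) ^ 2) =
      fun x => ∑ S : Finset (Fin n), ∑ T : Finset (Fin n), c S * c T * (chi S x * chi T x) := by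
    funext x
    rw [pow_two, Finset.sum_mul_sum]
    apply Finset.sum_congr rfl; intro S _
    apply Finset.sum_congr rfl; intro T _
    ring
  rw [h, Ex_sum]
  apply Finset.sum_congr rfl
  intro S _
  rw [Ex_sum]
  simp only [Ex_mul, chi_orth]
  simp [pow_two]

lemma parseval (f : (Fin n → Bool) → ℝ) : Ex (fun x => f x ^ 2) = ∑ S : Finset (Fin n), fh f S ^ 2 := by
  rw [← parseval']
  congr 1; funext x
  rw [← inversion]

/-- The coordinates of `U` from `x`, the others from `y`. -/
def mix (z : Fin n → Bool) (x y : Fin n → Bool) : Fin n → Bool := fun i => if z i then x i else y i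

/-- the indicator that all coordinates in `S` belong to the block of `z` -/
def inU (z : Fin n → Bool) (S : Finset (Fin n)) : ℝ := ∏ i ∈ S, (if z i then 1 else 0)

/-- the indicator that no coordinate in `S` belongs to the block of `z` -/
def outU (z : Fin n → Bool) (S : Finset (Fin n)) : ℝ := ∏ i ∈ S, (if z i then 0 else 1)

lemma chi_mix_left (z x : Fin n → Bool) (S : Finset (Fin n)) :
    Ex (fun y => chi S (mix z x y)) = inU z S * chi S x := by
  have h : (fun y : Fin n → Bool => chi S (mix z x y)) =
      fun y => ∏ i, (fun (i : Fin n) (b : Bool) =>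
        if i ∈ S then (if z i then sb (x i) else sb b) else 1) i (y i) := by
    funext y
    rw [chi_eq]
    apply Finset.prod_congr rfl
    intro i _
    simp only [mix]
    split_ifs <;> rfl
  rw [h]
  refine (Ex_prod (fun (i : Fin n) (b : Bool) =>
        if i ∈ S then (if z i then sb (x i) else sb b) else 1)).trans ?_
  have h2 : inU z S * chi S x = ∏ i, (if i ∈ S then (if z i then sb (x i) else 0) else 1) := by
    rw [Finset.prod_ite_mem, inU, chi, ← Finset.prod_mul_distrib]
    simp only [Finset.univ_inter]
    apply Finset.prod_congr rfl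
    intro i _
    split_ifs <;> simp
  rw [h2]
  apply Finset.prod_congr rfl
  intro i _
  by_cases h1 : i ∈ S <;> by_cases h3 : z i <;> simp [h1, h3]

lemma chi_mix_right (z y : Fin n → Bool) (S : Finset (Fin n)) :
    Ex (fun x => chi S (mix z x y)) = outU z S * chi S y := by
  have h : (fun x : Fin n → Bool => chi S (mix z x y)) =
      fun x => ∏ i, (fun (i : Fin n) (b : Bool) =>
        if i ∈ S then (if z i then sb b else sb (y i)) else 1) i (x i) := by
    funext x
    rw [chi_eq]
    apply Finset.prod_congr rfl
    intro i _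
    simp only [mix]
    split_ifs <;> rfl
  rw [h]
  refine (Ex_prod (fun (i : Fin n) (b : Bool) =>
        if i ∈ S then (if z i then sb b else sb (y i)) else 1)).trans ?_
  have h2 : outU z S * chi S y = ∏ i, (if i ∈ S then (if z i then 0 else sb (y i)) else 1) := by
    rw [Finset.prod_ite_mem, outU, chi, ← Finset.prod_mul_distrib]
    simp only [Finset.univ_inter]
    apply Finset.prod_congr rfl
    intro i _
    split_ifs <;> simp
  rw [h2]
  apply Finset.prod_congr rfl
  intro i _
  by_cases h1 : i ∈ S <;> by_cases h3 : z i <;> simp [h1, h3]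

lemma inU_sq (z : Fin n → Bool) (S : Finset (Fin n)) : inU z S ^ 2 = inU z S := by
  unfold inU
  rw [← Finset.prod_pow]
  apply Finset.prod_congr rfl
  intro i _
  split_ifs <;> simp

lemma outU_sq (z : Fin n → Bool) (S : Finset (Fin n)) : outU z S ^ 2 = outU z S := by
  unfold outU
  rw [← Finset.prod_pow]
  apply Finset.prod_congr rfl
  intro i _
  split_ifs <;> simp

lemma Ex_inU (S : Finset (Fin n)) : Ex (fun z => inU z S) = (1 / 2) ^ S.card := by
  have h : (fun z : Fin n → Bool => inU z S) =
      fun z => ∏ i, (fun (i : Fin n) (b : Bool) => if i ∈ S then (if b then (1 : ℝ) else 0) else 1) i (z i) := by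
    funext z
    rw [Finset.prod_ite_mem]; simp [inU]
  rw [h]
  refine (Ex_prod (fun (i : Fin n) (b : Bool) => if i ∈ S then (if b then (1 : ℝ) else 0) else 1)).trans ?_
  have : ∀ i : Fin n, ((if i ∈ S then (if true = true then (1 : ℝ) else 0) else 1) +
      (if i ∈ S then (if false = true then (1 : ℝ) else 0) else 1)) / 2 =
      if i ∈ S then 1 / 2 else 1 := by
    intro i
    by_cases hi : i ∈ S <;> simp [hi]
  rw [Finset.prod_congr rfl fun i _ => this i, Finset.prod_ite_mem]
  simp

lemma Ex_outU (S : Finset (Fin n)) : Ex (fun z => outU z S) = (1 / 2) ^ S.card := by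
  have h : (fun z : Fin n → Bool => outU z S) =
      fun z => ∏ i, (fun (i : Fin n) (b : Bool) => if i ∈ S then (if b then (0 : ℝ) else 1) else 1) i (z i) := by
    funext z
    rw [Finset.prod_ite_mem]; simp [outU]
  rw [h]
  refine (Ex_prod (fun (i : Fin n) (b : Bool) => if i ∈ S then (if b then (0 : ℝ) else 1) else 1)).trans ?_
  have : ∀ i : Fin n, ((if i ∈ S then (if true = true then (0 : ℝ) else 1) else 1) +
      (if i ∈ S then (if false = true then (0 : ℝ) else 1) else 1)) / 2 =
      if i ∈ S then 1 / 2 else 1 := by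
    intro i
    by_cases hi : i ∈ S <;> simp [hi]
  rw [Finset.prod_congr rfl fun i _ => this i, Finset.prod_ite_mem]
  simp

lemma chi_not (S : Finset (Fin n)) (x : Fin n → Bool) :
    chi S (fun i => !x i) = (-1) ^ S.card * chi S x := by
  unfold chi
  rw [← Finset.prod_const, ← Finset.prod_mul_distrib]
  apply Finset.prod_congr rfl
  intro i _
  rw [sb_not]; ring

/-- flipping the coordinates of the block -/
def flip (z x : Fin n → Bool) : Fin n → Bool := fun i => xor (z i) (x i)

lemma chi_flip (S : Finset (Fin n)) (z x : Fin n → Bool) :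
    chi S (flip z x) = chi S z * chi S x := by
  unfold chi flip
  rw [← Finset.prod_mul_distrib]
  apply Finset.prod_congr rfl
  intro i _
  rw [sb_xor]

lemma Ex_flip (f : (Fin n → Bool) → ℝ) (z : Fin n → Bool) :
    Ex (fun x => f x * f (flip z x)) = ∑ S : Finset (Fin n), fh f S ^ 2 * chi S z := by
  have h : (fun x : Fin n → Bool => f x * f (flip z x)) =
      fun x => ∑ S : Finset (Fin n), ∑ T : Finset (Fin n), fh f S * (fh f T * chi T z) * (chi S x * chi T x) := by
    funext x
    rw [inversion f x, inversion f (flip z x), Finset.sum_mul_sum]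
    apply Finset.sum_congr rfl; intro S _
    apply Finset.sum_congr rfl; intro T _
    rw [chi_flip]; ring
  rw [h, Ex_sum]
  apply Finset.sum_congr rfl
  intro S _
  rw [Ex_sum]
  simp only [Ex_mul, chi_orth]
  simp only [mul_ite, mul_one, mul_zero, Finset.sum_ite_eq, Finset.mem_univ, if_true]
  ring

lemma Ex_mix (g : (Fin n → Bool) → ℝ) (z : Fin n → Bool) :
    Ex (fun x => Ex fun y => g (mix z x y)) = Ex g := by
  have h1 : (fun x : Fin n → Bool => Ex fun y => g (mix z x y)) =
      fun x => ∑ S : Finset (Fin n), fh g S * (inU z S * chi S x) := by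
    funext x
    have : (fun y => g (mix z x y)) = fun y => ∑ S : Finset (Fin n), fh g S * chi S (mix z x y) := by
      funext y; exact inversion g _
    rw [this, Ex_sum]
    simp only [Ex_mul, chi_mix_left]
  rw [h1, Ex_sum]
  have h2 : ∀ S : Finset (Fin n), Ex (fun x => fh g S * (inU z S * chi S x)) =
      if S = ∅ then fh g ∅ else 0 := by
    intro S
    rw [Ex_mul, Ex_mul]
    have h3 : Ex (fun x => chi S x) = if S = ∅ then 1 else 0 := by
      rw [← chi_orth S ∅]
      congr 1; funext x
      simp [chi]
    rw [h3]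
    split_ifs with hS
    · subst hS; simp [inU]
    · ring
  simp only [h2]
  simp [fh, chi]

end Pool.Agent.MP_cb3c9c_an.TwoBlock
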