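import Mathlib

set_option autoImplicit false

open Filter Topology Real

namespace Pool.Agent.MP_cb3c9c_an

theorem cb_W (m : ℕ) :
    (Nat.centralBinom m : ℝ) ^ 2 * ((2 * m + 1) * Real.Wallis.W m) = 16 ^ m := by
  induction m with
  | zero => simp [Real.Wallis.W]
  | succ m ih =>
    have h : ((m : ℝ) + 1) * (Nat.centralBinom (m + 1) : ℝ)
        = 2 * (2 * m + 1) * (Nat.centralBinom m : ℝ) := by
      exact_mod_cast Nat.succ_mul_centralBinom_succ m
    have h1 : (Nat.centralBinom (m + 1) : ℝ)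
        = 2 * (2 * m + 1) * (Nat.centralBinom m : ℝ) / (m + 1) := by
      rw [eq_div_iff (by positivity)]; linarith
    rw [h1, Real.Wallis.W_succ, pow_succ (16 : ℝ) m, ← ih]
    push_cast
    have e1 : (2 * (m : ℝ) + 1) ≠ 0 := by positivity
    have e2 : (2 * (m : ℝ) + 3) ≠ 0 := by positivity
    have e3 : ((m : ℝ) + 1) ≠ 0 := by positivity
    have e4 : (2 * ((m : ℝ) + 1) + 1) ≠ 0 := by positivity
    field_simp
    ring

/-- The auxiliary sequence `(πm+1)/((2m+1)W_m)`. -/
noncomputable def ee (m : ℕ) : ℝ := (π * m + 1) / ((2 * m + 1) * Real.Wallis.W m)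

theorem ee_succ_le (m : ℕ) (hm : 1 ≤ m) : ee (m + 1) ≤ ee m := by
  unfold ee
  have hW := Real.Wallis.W_pos m
  have hm' : (1 : ℝ) ≤ m := by exact_mod_cast hm
  have hpi := Real.pi_lt_d2
  have hpi0 := Real.pi_pos
  rw [Real.Wallis.W_succ]
  push_cast
  have e0 : (2 * ((m : ℝ) + 1) + 1) * (Real.Wallis.W m * ((2 * m + 2) / (2 * m + 1) *
      ((2 * m + 2) / (2 * m + 3)))) = (2 * m + 2) ^ 2 / (2 * m + 1) * Real.Wallis.W m := by
    have e1 : (2 * (m : ℝ) + 1) ≠ 0 := by positivity
    have e2 : (2 * (m : ℝ) + 3) ≠ 0 := by positivity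
    field_simp
    ring
  rw [e0]
  rw [div_le_div_iff₀ (by positivity) (by positivity)]
  have key : (π * (m + 1) + 1) * (2 * m + 1) ^ 2 ≤ (π * m + 1) * (2 * m + 2) ^ 2 := by
    nlinarith
  have e3 : (π * ((m : ℝ) + 1) + 1) * ((2 * m + 1) * Real.Wallis.W m)
      = ((π * (m + 1) + 1) * (2 * m + 1) ^ 2) * (Real.Wallis.W m / (2 * m + 1)) := by
    have e1 : (2 * (m : ℝ) + 1) ≠ 0 := by positivity
    field_simp
  have e4 : (π * (m : ℝ) + 1) * ((2 * m + 2) ^ 2 / (2 * m + 1) * Real.Wallis.W m)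
      = ((π * m + 1) * (2 * m + 2) ^ 2) * (Real.Wallis.W m / (2 * m + 1)) := by
    have e1 : (2 * (m : ℝ) + 1) ≠ 0 := by positivity
    field_simp
  rw [e3, e4]
  apply mul_le_mul_of_nonneg_right key
  positivity

theorem tendsto_ee : Tendsto ee atTop (𝓝 1) := by
  have h1 : Tendsto (fun m : ℕ => (π * m + 1) / (2 * (m : ℝ) + 1)) atTop (𝓝 (π / 2)) := by
    have h2 : Tendsto (fun m : ℕ => π / 2 + (1 - π / 2) / (2 * (m : ℝ) + 1)) atTop
        (𝓝 (π / 2 + 0)) := by
      refine tendsto_const_nhds.add ?_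
      refine tendsto_const_nhds.div_atTop ?_
      refine Tendsto.atTop_add ?_ tendsto_const_nhds
      exact tendsto_natCast_atTop_atTop.const_mul_atTop two_pos
    rw [add_zero] at h2
    refine h2.congr (fun m => ?_)
    have e1 : (2 * (m : ℝ) + 1) ≠ 0 := by positivity
    field_simp
    ring
  have h3 := h1.div Real.Wallis.tendsto_W_nhds_pi_div_two (by positivity)
  rw [div_self (by positivity)] at h3
  refine h3.congr (fun m => ?_)
  simp only [Pi.div_apply]
  unfold ee
  rw [div_div]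

theorem one_le_ee (m : ℕ) (hm : 1 ≤ m) : 1 ≤ ee m := by
  have hanti : ∀ n, m ≤ n → ee n ≤ ee m := by
    intro n hn
    induction n, hn using Nat.le_induction with
    | base => exact le_rfl
    | succ n hn ih => exact (ee_succ_le n (hm.trans hn)).trans ih
  refine le_of_tendsto tendsto_ee ?_
  filter_upwards [eventually_ge_atTop m] with n hn using hanti n hn

/-- The sharp central binomial bound `16^m ≤ C(2m,m)² (πm+1)`. -/
theorem wallis_bound (m : ℕ) :
    (16 : ℝ) ^ m ≤ (Nat.centralBinom m : ℝ) ^ 2 * (π * m + 1) := by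
  rcases Nat.eq_zero_or_pos m with rfl | hm
  · simp
  · have h := one_le_ee m hm
    unfold ee at h
    have hW := Real.Wallis.W_pos m
    rw [le_div_iff₀ (by positivity), one_mul] at h
    rw [← cb_W m]
    apply mul_le_mul_of_nonneg_left h
    positivity

end Pool.Agent.MP_cb3c9c_an
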